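import Pool.Agent.U97.SC.Cod

set_option autoImplicit false

/-!
Local determination of thinly scattered relations of arbitrary arity.
-/

namespace Pool.Agent.U97.SC

open Set MeasureTheory
open Pool.Agent.N481.VT (SLO)

/-- everything -/
def Tr : ℕ → Prop := fun _ => True

section fixed

variable {l R : ℕ → ℕ → Prop} {A B : ℕ → Prop} {th : Bool} {n : ℕ}

theorem scat_of_anti {e f : Bool} (h : ∀ m n m' n', R m n → R m' n' → od e l m m' →
    od f l n n' → False) : Scat th l R A B := by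
  intro Z _ hne
  by_cases h1 : ∃ m n, Z m n ∧ R m n
  · obtain ⟨m, n, h2, h3⟩ := h1
    refine ⟨m, n, h2, e, f, false, fun h => absurd h (by decide), fun m' n' h4 h5 h6 => ?_⟩
    exact ⟨fun h7 => (h m n m' n' h3 h7 h5 h6).elim, fun h7 => absurd h7 (by decide)⟩
  · obtain ⟨m, n, h2⟩ := hne
    refine ⟨m, n, h2, e, f, false, fun h => absurd h (by decide), fun m' n' h4 _ _ => ?_⟩
    exact ⟨fun h7 => (h1 ⟨m', n', h4, h7⟩).elim, fun h7 => absurd h7 (by decide)⟩

theorem scat_const {c : Bool} (hc : c = true → th = false)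
    (h : ∀ m n, A m → B n → (R m n ↔ c = true)) : Scat th l R A B := by
  intro Z hZ hne
  obtain ⟨m, n, h2⟩ := hne
  exact ⟨m, n, h2, true, true, c, hc, fun m' n' h4 _ _ => h m' n' (hZ _ _ h4).1 (hZ _ _ h4).2⟩

theorem scat_of_fl {α : Ordinal.{0}} (h : Fl α th l R A B) : Scat th l R A B := by
  intro Z hZ hne
  by_contra hcon
  push Not at hcon
  have key : ∀ o : Ordinal.{0}, ∀ m n, Z m n → Zs th l R A B o m n := by
    intro o
    induction o using WellFoundedLT.induction with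
    | _ o ih =>
      intro m n hmn
      rw [zs_iff]
      refine ⟨(hZ m n hmn).1, (hZ m n hmn).2, fun o' ho e f c hc => ?_⟩
      obtain ⟨m', n', h1, h2, h3, h4⟩ := hcon m n hmn e f c hc
      exact ⟨m', n', ih o' ho m' n' h1, h2, h3, by tauto⟩
  obtain ⟨m, n, hmn⟩ := hne
  exact h m n (key α m n hmn)

/-- the increasing pairs of entries of the tuples in the relation -/
def Pp (l : ℕ → ℕ → Prop) (S : (Fin n → ℕ) → Prop) (s t : Fin n) (x y : ℕ) : Prop :=
  l x y ∧ ∃ v, S v ∧ v s = x ∧ v t = y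

/-- The sets of increasing pairs of entries are thinly scattered. -/
def Thin (l : ℕ → ℕ → Prop) (S : (Fin n → ℕ) → Prop) : Prop :=
  ∀ s t : Fin n, Scat true l (Pp l S s t) Tr Tr

/-- `y` is the last (first) `j`-th entry of the tuples in `T` whose `s`-th entry is `x`. -/
def Ex (l : ℕ → ℕ → Prop) (T : (Fin n → ℕ) → Prop) (s : Fin n) (sg : Bool) (j : Fin n)
    (x y : ℕ) : Prop :=
  (∃ t, T t ∧ t s = x ∧ t j = y) ∧ ∀ t, T t → t s = x → ¬ od sg l y (t j)

/-- `T` contains the tuple of these extreme entries. -/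
def Bx (l : ℕ → ℕ → Prop) (T : (Fin n → ℕ) → Prop) (s : Fin n) (sg : Fin n → Bool)
    (x : ℕ) : Prop :=
  ∃ t, T t ∧ t s = x ∧ ∀ j, ∀ t', T t' → t' s = x → ¬ od (sg j) l (t j) (t' j)

/-- For each pair of coordinates one of the four strict orders does not occur. -/
def Anti (l : ℕ → ℕ → Prop) (T : (Fin n → ℕ) → Prop) : Prop :=
  ∀ s t : Fin n, ∃ e f, ∀ u u', T u → T u' → od e l (u s) (u' s) → od f l (u t) (u' t) → False

theorem bx_back (hl : SLO l) {T : (Fin n → ℕ) → Prop} {s : Fin n} {sg : Fin n → Bool}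
    {w : Fin n → ℕ} (h1 : ∀ j, Ex l T s (sg j) j (w s) (w j)) (h2 : Bx l T s sg (w s)) : T w := by
  obtain ⟨t, h3, h4, h5⟩ := h2
  have e : t = w := by
    funext j
    obtain ⟨⟨t1, h6, h7, h8⟩, h9⟩ := h1 j
    have h10 := h5 j t1 h6 h7
    rw [h8] at h10
    rcases (slo_od hl (sg j)).tot (t j) (w j) with h | h | h
    · exact h
    · exact absurd h h10
    · exact absurd h (h9 t h3 h4)
  rw [← e]
  exact h3

theorem bx_forth (hl : SLO l) {T : (Fin n → ℕ) → Prop} (hT : Anti l T) (hn : 0 < n)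
    {v : Fin n → ℕ} (hv : T v) : ∃ (s : Fin n) (sg : Fin n → Bool),
      (∀ j, Ex l T s (sg j) j (v s) (v j)) ∧ Bx l T s sg (v s) := by
  classical
  obtain ⟨s, -, hs⟩ := Set.Finite.exists_minimalFor (fun j : Fin n => {t | T t ∧ t j = v j})
    (univ : Set (Fin n)) finite_univ ⟨⟨0, hn⟩, mem_univ _⟩
  have key : ∀ j, ∃ b, ∀ t, T t → t s = v s → ¬ od b l (v j) (t j) := by
    intro j
    by_contra hcon
    push Not at hcon
    obtain ⟨t1, h1, h2, h3⟩ := hcon true
    obtain ⟨t2, h4, h5, h6⟩ := hcon false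
    have h3' : l (v j) (t1 j) := by simpa [od] using h3
    have h6' : l (t2 j) (v j) := by simpa [od] using h6
    obtain ⟨e, f, hef⟩ := hT s j
    -- a tuple with the same j-th entry has the same s-th entry
    have h7 : ∀ t, T t → t j = v j → t s = v s := by
      intro t ht htj
      by_contra hne
      have hb : ∀ f, (∃ t', T t' ∧ t' s = v s ∧ od f l (v j) (t' j)) ∧
          ∃ t', T t' ∧ t' s = v s ∧ od f l (t' j) (v j) := by
        intro f
        cases f with
        | true => exact ⟨⟨t1, h1, h2, by simpa [od] using h3'⟩, ⟨t2, h4, h5, by simpa [od] using h6'⟩⟩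
        | false => exact ⟨⟨t2, h4, h5, by simpa [od] using h6'⟩, ⟨t1, h1, h2, by simpa [od] using h3'⟩⟩
      rcases (slo_od hl e).tot (t s) (v s) with h | h | h
      · exact hne h
      · obtain ⟨⟨t', k1, k2, k3⟩, -⟩ := hb f
        exact hef t t' ht k1 (by rw [k2]; exact h) (by rw [htj]; exact k3)
      · obtain ⟨-, ⟨t', k1, k2, k3⟩⟩ := hb f
        exact hef t' t k1 ht (by rw [k2]; exact h) (by rw [htj]; exact k3)
    have h8 : {t | T t ∧ t j = v j} ≤ {t | T t ∧ t s = v s} := fun t ht => ⟨ht.1, h7 t ht.1 ht.2⟩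
    have h9 := hs (mem_univ j) h8
    have h10 : t1 j = v j := (h9 ⟨h1, h2⟩).2
    rw [h10] at h3'
    exact hl.irr _ h3'
  choose sg hsg using key
  exact ⟨s, sg, fun j => ⟨⟨v, hv, rfl, rfl⟩, hsg j⟩, v, hv, rfl, fun j t' h1 h2 => hsg j t' h1 h2⟩

/-- index sets of conditions -/
abbrev K1 : Type := Finset (ℕ × ℕ × ℕ × Bool × Bool)
abbrev K2 : Type := Finset (ℕ × ℕ)

/-- the pieces of a thinly scattered relation -/
def Tk (g : ℕ → Ordinal.{0}) (l : ℕ → ℕ → Prop) (S : (Fin n → ℕ) → Prop) (C1 : K1) (C2 : K2)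
    (v : Fin n → ℕ) : Prop :=
  S v ∧ (∀ (s t : Fin n) (b : ℕ) (e f : Bool), (s.1, t.1, b, e, f) ∈ C1 →
    Ec true l (Pp l S s t) Tr Tr (g b) e f false (v s) (v t)) ∧
    ∀ s t : Fin n, (s.1, t.1) ∈ C2 → v s = v t

theorem exists_piece {α : Ordinal.{0}} {g : ℕ → Ordinal.{0}} (hl : SLO l)
    (hg2 : ∀ o < α, ∃ n, g n = o) {S : (Fin n → ℕ) → Prop}
    (hS : ∀ s t : Fin n, Fl α true l (Pp l S s t) Tr Tr) {v : Fin n → ℕ} (hv : S v) :
    ∃ C1 C2, Tk g l S C1 C2 v ∧ Anti l (Tk g l S C1 C2) := by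
  classical
  have h1 : ∀ s t : Fin n, ∃ (b : ℕ) (e f : Bool), l (v s) (v t) →
      Ec true l (Pp l S s t) Tr Tr (g b) e f false (v s) (v t) := by
    intro s t
    by_cases h : l (v s) (v t)
    · obtain ⟨o, ho, -, e, f, c, hc, h2⟩ := ex_layer (A := Tr) (B := Tr) trivial trivial
        (hS s t (v s) (v t))
      obtain ⟨b, rfl⟩ := hg2 o ho
      have hc' : c = false := by
        cases c with
        | true => exact absurd (hc rfl) (by decide)
        | false => rfl
      subst hc'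
      refine ⟨b, e, f, fun _ => ⟨h2, fun h3 => ?_⟩⟩
      exact absurd (h3.1 ⟨h, v, hv, rfl, rfl⟩) (by decide)
    · exact ⟨0, true, true, fun h' => absurd h' h⟩
  choose b e f hb using h1
  refine ⟨(Finset.univ.filter fun q : Fin n × Fin n => l (v q.1) (v q.2)).image
    fun q => (q.1.1, q.2.1, b q.1 q.2, e q.1 q.2, f q.1 q.2),
    (Finset.univ.filter fun q : Fin n × Fin n => v q.1 = v q.2).image fun q => (q.1.1, q.2.1),
    ⟨hv, ?_, ?_⟩, ?_⟩
  · intro s t b' e' f' h
    obtain ⟨q, hq, hq2⟩ := Finset.mem_image.1 h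
    have hq1 := (Finset.mem_filter.1 hq).2
    simp only [Prod.mk.injEq] at hq2
    obtain ⟨k1, k2, rfl, rfl, rfl⟩ := hq2
    have e1 : q.1 = s := Fin.ext k1
    have e2 : q.2 = t := Fin.ext k2
    rw [e1, e2] at hq1 ⊢
    exact hb s t hq1
  · intro s t h
    obtain ⟨q, hq, hq2⟩ := Finset.mem_image.1 h
    have hq1 := (Finset.mem_filter.1 hq).2
    simp only [Prod.mk.injEq] at hq2
    have e1 : q.1 = s := Fin.ext hq2.1
    have e2 : q.2 = t := Fin.ext hq2.2
    rw [e1, e2] at hq1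
    exact hq1
  · intro s t
    rcases hl.tot (v s) (v t) with h | h | h
    · refine ⟨true, false, fun u u' hu hu' h3 h4 => ?_⟩
      have hm : (s.1, t.1) ∈ (Finset.univ.filter fun q : Fin n × Fin n =>
          v q.1 = v q.2).image fun q => (q.1.1, q.2.1) :=
        Finset.mem_image.2 ⟨(s, t), Finset.mem_filter.2 ⟨Finset.mem_univ _, h⟩, rfl⟩
      have k1 := hu.2.2 s t hm
      have k2 := hu'.2.2 s t hm
      rw [← k1, ← k2] at h4
      have h3' : l (u s) (u' s) := by simpa [od] using h3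
      have h4' : l (u' s) (u s) := by simpa [od] using h4
      exact hl.irr _ (hl.tr _ _ _ h3' h4')
    · have hm : (s.1, t.1, b s t, e s t, f s t) ∈ (Finset.univ.filter fun q : Fin n × Fin n =>
          l (v q.1) (v q.2)).image fun q => (q.1.1, q.2.1, b q.1 q.2, e q.1 q.2, f q.1 q.2) :=
        Finset.mem_image.2 ⟨(s, t), Finset.mem_filter.2 ⟨Finset.mem_univ _, h⟩, rfl⟩
      exact ⟨e s t, f s t, fun u u' hu hu' h3 h4 => ec_anti _ _ _ _ (hu.2.1 s t _ _ _ hm)
        (hu'.2.1 s t _ _ _ hm) h3 h4⟩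
    · have hm : (t.1, s.1, b t s, e t s, f t s) ∈ (Finset.univ.filter fun q : Fin n × Fin n =>
          l (v q.1) (v q.2)).image fun q => (q.1.1, q.2.1, b q.1 q.2, e q.1 q.2, f q.1 q.2) :=
        Finset.mem_image.2 ⟨(t, s), Finset.mem_filter.2 ⟨Finset.mem_univ _, h⟩, rfl⟩
      exact ⟨f t s, e t s, fun u u' hu hu' h3 h4 => ec_anti _ _ _ _ (hu.2.1 t s _ _ _ hm)
        (hu'.2.1 t s _ _ _ hm) h4 h3⟩

theorem ex_scat {T : (Fin n → ℕ) → Prop} (hT : Anti l T) (s : Fin n) (sg : Bool) (j : Fin n) :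
    Scat th l (Ex l T s sg j) A B := by
  obtain ⟨e, f, h⟩ := hT s j
  refine scat_of_anti (e := e) (f := f) ?_
  rintro m n m' n' ⟨⟨t, h1, h2, h3⟩, -⟩ ⟨⟨t', h4, h5, h6⟩, -⟩ h7 h8
  rw [← h2, ← h5] at h7
  rw [← h3, ← h6] at h8
  exact h t t' h1 h4 h7 h8

end fixed

/-! ### Equivariance and measurability -/

section equi

variable {σ : Equiv.Perm ℕ} {l l' : ℕ → ℕ → Prop} {n : ℕ} {S S' : (Fin n → ℕ) → Prop}

theorem comp_surj (σ : Equiv.Perm ℕ) :
    Function.Surjective fun v : Fin n → ℕ => (⇑σ ∘ v : Fin n → ℕ) := by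
  intro w
  refine ⟨⇑σ.symm ∘ w, ?_⟩
  funext j
  simp

theorem pp_equi (hl : ∀ m n, l' (σ m) (σ n) ↔ l m n) (hS : ∀ v, S' (⇑σ ∘ v) ↔ S v)
    (s t : Fin n) (x y : ℕ) : Pp l' S' s t (σ x) (σ y) ↔ Pp l S s t x y := by
  unfold Pp
  rw [(comp_surj σ).exists, hl]
  simp only [hS, Function.comp_apply, σ.injective.eq_iff]

theorem tk_equi {g : ℕ → Ordinal.{0}} (hl : ∀ m n, l' (σ m) (σ n) ↔ l m n)
    (hS : ∀ v, S' (⇑σ ∘ v) ↔ S v) (C1 : K1) (C2 : K2) (v : Fin n → ℕ) :
    Tk g l' S' C1 C2 (⇑σ ∘ v) ↔ Tk g l S C1 C2 v := by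
  unfold Tk
  simp only [hS, Function.comp_apply, σ.injective.eq_iff,
    fun s t => ec_equi (th := true) (A := Tr) (A' := Tr) (B := Tr) (B' := Tr) hl
      (pp_equi (n := n) hl hS s t) (fun _ => Iff.rfl) (fun _ => Iff.rfl)]

theorem ex_equi {T T' : (Fin n → ℕ) → Prop} (hl : ∀ m n, l' (σ m) (σ n) ↔ l m n)
    (hT : ∀ v, T' (⇑σ ∘ v) ↔ T v) (s : Fin n) (sg : Bool) (j : Fin n) (x y : ℕ) :
    Ex l' T' s sg j (σ x) (σ y) ↔ Ex l T s sg j x y := by
  unfold Ex
  rw [(comp_surj σ).exists, (comp_surj σ).forall]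
  simp only [hT, Function.comp_apply, σ.injective.eq_iff, od_equi hl]

theorem bx_equi {T T' : (Fin n → ℕ) → Prop} (hl : ∀ m n, l' (σ m) (σ n) ↔ l m n)
    (hT : ∀ v, T' (⇑σ ∘ v) ↔ T v) (s : Fin n) (sg : Fin n → Bool) (x : ℕ) :
    Bx l' T' s sg (σ x) ↔ Bx l T s sg x := by
  have h1 : ∀ (t : Fin n → ℕ) (j : Fin n),
      (∀ t', T' t' → t' s = σ x → ¬ od (sg j) l' ((⇑σ ∘ t) j) (t' j)) ↔
        ∀ t', T t' → t' s = x → ¬ od (sg j) l (t j) (t' j) := by
    intro t j
    rw [(comp_surj σ).forall]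
    refine forall_congr' fun t' => ?_
    rw [hT, Function.comp_apply, Function.comp_apply, Function.comp_apply, σ.injective.eq_iff,
      od_equi hl]
  unfold Bx
  rw [(comp_surj σ).exists]
  refine exists_congr fun t => ?_
  rw [hT]
  refine and_congr Iff.rfl (and_congr ?_ (forall_congr' fun j => h1 t j))
  rw [Function.comp_apply, σ.injective.eq_iff]

end equi

section meas

variable {Y : Type} [MeasurableSpace Y] {l : Y → ℕ → ℕ → Prop} {n : ℕ}
  {S T : Y → (Fin n → ℕ) → Prop}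

theorem m_pp (hl : ∀ m n, Measurable fun y => l y m n) (hS : ∀ v, Measurable fun y => S y v)
    (s t : Fin n) (x y : ℕ) : Measurable fun z => Pp (l z) (S z) s t x y := by
  unfold Pp
  exact (hl x y).and (Measurable.exists fun v => (hS v).and
    (measurable_const.and measurable_const))

theorem m_tk {g : ℕ → Ordinal.{0}} (hg : ∀ n, g n < Ordinal.omega 1)
    (hl : ∀ m n, Measurable fun y => l y m n) (hS : ∀ v, Measurable fun y => S y v)
    (C1 : K1) (C2 : K2) (v : Fin n → ℕ) :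
    Measurable fun z => Tk g (l z) (S z) C1 C2 v := by
  unfold Tk
  exact (hS v).and ((Measurable.forall fun s => Measurable.forall fun t =>
    Measurable.forall fun b => Measurable.forall fun e => Measurable.forall fun f =>
      measurable_const.imp (m_ec hl (m_pp hl hS s t) (fun _ => measurable_const)
        (fun _ => measurable_const) (hg b) _ _ _ _ _)).and
          (Measurable.forall fun s => Measurable.forall fun t => measurable_const))

theorem m_ex (hl : ∀ m n, Measurable fun y => l y m n) (hT : ∀ v, Measurable fun y => T y v)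
    (s : Fin n) (sg : Bool) (j : Fin n) (x y : ℕ) :
    Measurable fun z => Ex (l z) (T z) s sg j x y := by
  unfold Ex
  exact (Measurable.exists fun t => (hT t).and measurable_const).and
    (Measurable.forall fun t => (hT t).imp (measurable_const.imp (m_od hl _ _ _).not))

theorem m_bx (hl : ∀ m n, Measurable fun y => l y m n) (hT : ∀ v, Measurable fun y => T y v)
    (s : Fin n) (sg : Fin n → Bool) (x : ℕ) :
    Measurable fun z => Bx (l z) (T z) s sg x := by
  unfold Bx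
  exact Measurable.exists fun t => (hT t).and (measurable_const.and
    (Measurable.forall fun j => Measurable.forall fun t' => (hT t').imp
      (measurable_const.imp (m_od hl _ _ _).not)))

end meas

end Pool.Agent.U97.SC
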