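import Pool.Agent.U97.SC.Bd
import Pool.Agent.U97.SC.Loc

set_option autoImplicit false

/-!
Structures whose relations are locally determined by scattered binary relations and by thinly
scattered relations of arbitrary arities.
-/

namespace Pool.Agent.U97.SC

open Set MeasureTheory
open Pool.Agent.H533R2.VO (RS RIso VC Dich)
open Pool.Agent.H533R2.VS
open Pool.Agent.N481.VT (SLO)
open Pool.Agent.N481.VT.PM (DefB FamU m_rel)

variable {a : ℕ → ℕ}

/-- relations of arity `n` which are defined from parameters -/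
structure DefN {n : ℕ} (S : List ℕ → RS a → (Fin n → ℕ) → Prop) : Prop where
  meas : ∀ p v, MeasurableSet {x | S p x v}
  equi : ∀ p x (σ : Equiv.Perm ℕ) v, S (p.map σ) (act σ x) (⇑σ ∘ v) ↔ S p x v

/-- indices of the auxiliary relations and sets -/
abbrev XI (b : ℕ → ℕ) : Type := Σ j : ℕ, ℕ × K1 × K2 × Fin (b j) × Bool × Fin (b j)
abbrev YI (b : ℕ → ℕ) : Type := Σ j : ℕ, ℕ × K1 × K2 × Fin (b j) × (Fin (b j) → Bool)
abbrev DI (b : ℕ → ℕ) : Type := ℕ ⊕ XI b ⊕ YI b
abbrev QI (b : ℕ → ℕ) : Type := ℕ ⊕ Unit ⊕ (Bool × YI b)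

section ext

variable {b : ℕ → ℕ} (g : ℕ → Ordinal.{0}) (D : ℕ → List ℕ → RS a → ℕ → ℕ → Prop)
  (Q : ℕ → List ℕ → RS a → ℕ → Prop) (S : (j : ℕ) → List ℕ → RS a → (Fin (b j) → ℕ) → Prop)

def TX (j k : ℕ) (C1 : K1) (C2 : K2) (p : List ℕ) (x : RS a) : (Fin (b j) → ℕ) → Prop :=
  Tk g (D k p x) (S j p x) C1 C2

def EX (t : XI b) (p : List ℕ) (x : RS a) (m n : ℕ) : Prop :=
  Ex (D t.2.1 p x) (TX g D S t.1 t.2.1 t.2.2.1 t.2.2.2.1 p x) t.2.2.2.2.1 t.2.2.2.2.2.1
    t.2.2.2.2.2.2 m n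

def BX (t : YI b) (p : List ℕ) (x : RS a) (m : ℕ) : Prop :=
  Bx (D t.2.1 p x) (TX g D S t.1 t.2.1 t.2.2.1 t.2.2.2.1 p x) t.2.2.2.2.1 t.2.2.2.2.2 m

def DP : DI b → List ℕ → RS a → ℕ → ℕ → Prop
  | .inl j => D j
  | .inr (.inl t) => EX g D S t
  | .inr (.inr t) => fun p x m _ => BX g D S t p x m

def QP : QI b → List ℕ → RS a → ℕ → Prop
  | .inl r => Q r
  | .inr (.inl _) => fun _ _ => Tr
  | .inr (.inr (c, t)) => fun p x m => (BX g D S t p x m ↔ c = true)

/-- the class -/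
def CS (x : RS a) : Prop := ∃ (k : ℕ) (p : List ℕ), SLO (D k p x) ∧ ∀ (i : ℕ) (v : Fin (a i) → ℕ),
  x i v = true → ∃ J J' : Finset ℕ, (∀ j : J, Tame (D k p x) (D j p x) fun r => Q r p x) ∧
    (∀ j : J', Thin (D k p x) (S j p x)) ∧ ∀ w : Fin (a i) → ℕ,
      (∀ j ∈ J, ∀ s t, D j p x (v s) (v t) ↔ D j p x (w s) (w t)) →
      (∀ j ∈ J', ∀ c : Fin (b j) → Fin (a i), S j p x (v ∘ c) → S j p x (w ∘ c)) → x i w = true

/-- the bounded classes -/
def CSA (α : Ordinal.{0}) (x : RS a) : Prop := ∃ (k : ℕ) (p : List ℕ), SLO (D k p x) ∧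
  ∀ (i : ℕ) (v : Fin (a i) → ℕ),
  x i v = true → ∃ J J' : Finset ℕ, (∀ j : J, Gd α (D k p x) (D j p x) fun r => Q r p x) ∧
    (∀ j : J', ∀ s t, Fl α true (D k p x) (Pp (D k p x) (S j p x) s t) Tr Tr) ∧
      ∀ w : Fin (a i) → ℕ,
      (∀ j ∈ J, ∀ s t, D j p x (v s) (v t) ↔ D j p x (w s) (w t)) →
      (∀ j ∈ J', ∀ c : Fin (b j) → Fin (a i), S j p x (v ∘ c) → S j p x (w ∘ c)) → x i w = true

variable {g D Q S}

theorem m_tx (hg : ∀ n, g n < Ordinal.omega 1) (hD : ∀ k, DefB (D k)) (hS : ∀ j, DefN (S j))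
    (j k : ℕ) (C1 : K1) (C2 : K2) (p : List ℕ) (v : Fin (b j) → ℕ) :
    Measurable fun x => TX g D S j k C1 C2 p x v :=
  m_tk hg (fun m n => measurableSet_setOfPred.1 ((hD k).meas p m n))
    (fun v => measurableSet_setOfPred.1 ((hS j).meas p v)) C1 C2 v

theorem tx_equi (hD : ∀ k, DefB (D k)) (hS : ∀ j, DefN (S j))
    (j k : ℕ) (C1 : K1) (C2 : K2) (p : List ℕ) (x : RS a) (σ : Equiv.Perm ℕ) (v : Fin (b j) → ℕ) :
    TX g D S j k C1 C2 (p.map σ) (act σ x) (⇑σ ∘ v) ↔ TX g D S j k C1 C2 p x v :=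
  tk_equi (fun m n => (hD k).equi p x σ m n) (fun v => (hS j).equi p x σ v) C1 C2 v

theorem m_bxx (hg : ∀ n, g n < Ordinal.omega 1) (hD : ∀ k, DefB (D k)) (hS : ∀ j, DefN (S j))
    (t : YI b) (p : List ℕ) (m : ℕ) : Measurable fun x => BX g D S t p x m :=
  m_bx (fun m n => measurableSet_setOfPred.1 ((hD _).meas p m n))
    (fun v => m_tx hg hD hS _ _ _ _ p v) _ _ m

theorem bxx_equi (hD : ∀ k, DefB (D k)) (hS : ∀ j, DefN (S j)) (t : YI b) (p : List ℕ) (x : RS a)
    (σ : Equiv.Perm ℕ) (m : ℕ) : BX g D S t (p.map σ) (act σ x) (σ m) ↔ BX g D S t p x m :=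
  bx_equi (fun m n => (hD _).equi p x σ m n) (fun v => tx_equi hD hS _ _ _ _ p x σ v) _ _ m

theorem def_DP (hg : ∀ n, g n < Ordinal.omega 1) (hD : ∀ k, DefB (D k)) (hS : ∀ j, DefN (S j))
    (d : DI b) : DefB (DP g D S d) := by
  rcases d with j | t | t
  · exact hD j
  · refine ⟨fun p m n => measurableSet_setOfPred.2 ?_, fun p x σ m n => ?_⟩
    · exact m_ex (fun m n => measurableSet_setOfPred.1 ((hD _).meas p m n))
        (fun v => m_tx hg hD hS _ _ _ _ p v) _ _ _ m n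
    · exact ex_equi (fun m n => (hD _).equi p x σ m n) (fun v => tx_equi hD hS _ _ _ _ p x σ v)
        _ _ _ m n
  · exact ⟨fun p m n => measurableSet_setOfPred.2 (m_bxx hg hD hS t p m),
      fun p x σ m n => bxx_equi hD hS t p x σ m⟩

theorem fam_QP (hg : ∀ n, g n < Ordinal.omega 1) (hD : ∀ k, DefB (D k)) (hQ : FamU Q)
    (hS : ∀ j, DefN (S j)) : FamU fun r => QP g D Q S (dc r) := by
  constructor
  · intro r p m
    show MeasurableSet {x | QP g D Q S (dc r) p x m}
    generalize (dc r : QI b) = d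
    rcases d with j | t | ⟨c, t⟩
    · exact hQ.meas j p m
    · exact MeasurableSet.const _
    · exact measurableSet_setOfPred.2 ((m_bxx hg hD hS t p m).iff measurable_const)
  · intro r p x σ m
    show QP g D Q S (dc r) (p.map σ) (act σ x) (σ m) ↔ QP g D Q S (dc r) p x m
    generalize (dc r : QI b) = d
    rcases d with j | t | ⟨c, t⟩
    · exact hQ.equi j p x σ m
    · exact Iff.rfl
    · show (BX g D S t (p.map σ) (act σ x) (σ m) ↔ c = true) ↔ (BX g D S t p x m ↔ c = true)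
      rw [bxx_equi hD hS]

theorem bd_CS (hD : ∀ k, DefB (D k)) (hQ : FamU Q) (hS : ∀ j, DefN (S j)) :
    Bd (CS D Q S) (fun α => CSA D Q S α) := by
  have b1 : BorelSpace ((i : ℕ) → (Fin (a i) → ℕ) → Bool) := inferInstance
  have b5 : PolishSpace (RS a) := polish_of
  have h2 : ∀ p r m, Measurable fun x => Q r p x m := fun p r m =>
    measurableSet_setOfPred.1 (hQ.meas r p m)
  have h3 : ∀ p j m n, Measurable fun x => D j p x m n := fun p j m n =>
    measurableSet_setOfPred.1 ((hD j).meas p m n)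
  have h4 : ∀ p j v, Measurable fun x => S j p x v := fun p j v =>
    measurableSet_setOfPred.1 ((hS j).meas p v)
  refine bd_exists fun k => bd_exists fun p => bd_and (bd_meas (m_slo (h3 p k)))
    (bd_forall fun i => bd_forall fun v => bd_imp (m_rel i v) (bd_exists fun J =>
      bd_exists fun J' => bd_and
      (bd_forall fun j => bd_forall fun m => bd_forall fun n => bd_exists fun q =>
        bd_exists fun r => bd_and (bd_meas (h2 p q m)) (bd_and (bd_meas (h2 p r n))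
          (bd_scat (h3 p k) (h3 p j) (h2 p q) (h2 p r)))) (bd_and
            (bd_forall fun j => bd_forall fun s => bd_forall fun t =>
              bd_scat (h3 p k) (m_pp (h3 p k) (h4 p j) s t) (fun _ => measurable_const)
                (fun _ => measurable_const)) (bd_meas ?_))))
  exact Measurable.forall fun w => (Measurable.forall fun j => measurable_const.imp
    (Measurable.forall fun s => Measurable.forall fun t => (h3 p j _ _).iff (h3 p j _ _))).imp
      ((Measurable.forall fun j => measurable_const.imp (Measurable.forall fun c =>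
        (h4 p j _).imp (h4 p j _))).imp (m_rel i w))

variable {α : Ordinal.{0}}

/-- local determination -/
theorem local_thin (hg2 : ∀ o < α, ∃ n, g n = o) {k : ℕ} {p : List ℕ} {x : RS a}
    (hl : SLO (D k p x)) {j : ℕ} {n : ℕ}
    (hS : ∀ s t : Fin (b j), Fl α true (D k p x) (Pp (D k p x) (S j p x) s t) Tr Tr)
    (v : Fin n → ℕ) (c : Fin (b j) → Fin n) : ∃ F : Finset (DI b),
    (∀ d ∈ F, Tame (D k p x) (DP g D S d p x) fun r => QP g D Q S (dc r) p x) ∧
    ∀ w : Fin n → ℕ, (∀ d ∈ F, ∀ s t, DP g D S d p x (v s) (v t) ↔ DP g D S d p x (w s) (w t)) →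
      S j p x (v ∘ c) → S j p x (w ∘ c) := by
  classical
  by_cases hv : S j p x (v ∘ c)
  swap
  · exact ⟨∅, fun d hd => absurd hd (Finset.notMem_empty _), fun w _ h => absurd h hv⟩
  rcases Nat.eq_zero_or_pos (b j) with h0 | h0
  · refine ⟨∅, fun d hd => absurd hd (Finset.notMem_empty _), fun w _ h => ?_⟩
    have e : w ∘ c = v ∘ c := by
      funext t
      exact absurd t.2 (by omega)
    rw [e]
    exact h
  obtain ⟨C1, C2, h1, h2⟩ := exists_piece hl hg2 hS hv
  obtain ⟨s, sg, h3, h4⟩ := bx_forth hl h2 h0 h1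
  refine ⟨insert (.inr (.inr ⟨j, k, C1, C2, s, sg⟩)) (Finset.univ.image fun t : Fin (b j) =>
    (.inr (.inl ⟨j, k, C1, C2, s, sg t, t⟩) : DI b)), ?_, ?_⟩
  · intro d hd
    rcases Finset.mem_insert.1 hd with rfl | hd
    · intro m n
      let t : YI b := ⟨j, k, C1, C2, s, sg⟩
      refine ⟨enc (.inr (.inr (decide (BX g D S t p x m), t)) : QI b), enc (.inr (.inl ()) : QI b),
        ?_, ?_, scat_const (c := decide (BX g D S t p x m)) (fun _ => rfl) ?_⟩
      · show QP g D Q S (dc (enc _)) p x m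
        rw [dc_enc]
        show BX g D S t p x m ↔ decide (BX g D S t p x m) = true
        rw [decide_eq_true_iff]
      · show QP g D Q S (dc (enc _)) p x n
        rw [dc_enc]
        trivial
      · intro m' n' h5 _
        change QP g D Q S (dc (enc _)) p x m' at h5
        rw [dc_enc] at h5
        exact h5
    · obtain ⟨t, -, rfl⟩ := Finset.mem_image.1 hd
      intro m n
      refine ⟨enc (.inr (.inl ()) : QI b), enc (.inr (.inl ()) : QI b), ?_, ?_, ex_scat h2 s (sg t) t⟩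
      · show QP g D Q S (dc (enc _)) p x m
        rw [dc_enc]
        trivial
      · show QP g D Q S (dc (enc _)) p x n
        rw [dc_enc]
        trivial
  · intro w hw _
    have h5 : ∀ t, Ex (D k p x) (Tk g (D k p x) (S j p x) C1 C2) s (sg t) t ((w ∘ c) s)
        ((w ∘ c) t) := by
      intro t
      exact (hw (.inr (.inl ⟨j, k, C1, C2, s, sg t, t⟩)) (Finset.mem_insert_of_mem
        (Finset.mem_image_of_mem _ (Finset.mem_univ t))) (c s) (c t)).1 (h3 t)
    have h6 : Bx (D k p x) (Tk g (D k p x) (S j p x) C1 C2) s sg ((w ∘ c) s) :=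
      (hw (.inr (.inr ⟨j, k, C1, C2, s, sg⟩)) (Finset.mem_insert_self _ _) (c s) (c s)).1 h4
    exact (bx_back hl h5 h6).1

theorem csa_sub (hg2 : ∀ o < α, ∃ n, g n = o) {x : RS a} (h : CSA D Q S α x) :
    CM (fun n => DP g D S (dc n)) (fun r => QP g D Q S (dc r)) x := by
  classical
  obtain ⟨k, p, h1, h2⟩ := h
  refine ⟨enc (.inl k : DI b), p, ?_, fun i v hv => ?_⟩
  · show SLO (DP g D S (dc (enc _)) p x)
    rw [dc_enc]
    exact h1
  obtain ⟨J, J', h3, h4, h5⟩ := h2 i v hv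
  have key : ∀ j : J', ∀ c : Fin (b j) → Fin (a i), ∃ F : Finset (DI b),
    (∀ d ∈ F, Tame (D k p x) (DP g D S d p x) fun r => QP g D Q S (dc r) p x) ∧
    ∀ w : Fin (a i) → ℕ,
      (∀ d ∈ F, ∀ s t, DP g D S d p x (v s) (v t) ↔ DP g D S d p x (w s) (w t)) →
        S j p x (v ∘ c) → S j p x (w ∘ c) := fun j c => local_thin hg2 h1 (h4 j) v c
  choose F hF1 hF2 using key
  let G : Finset (DI b) := J.image (fun j => (.inl j : DI b)) ∪
    Finset.univ.biUnion fun j : J' => Finset.univ.biUnion fun c => F j c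
  have e1 : ∀ d : DI b, DP g D S (dc (enc d)) = DP g D S d := fun d => by rw [dc_enc]
  refine ⟨G.image enc, fun ⟨j, hj⟩ => ?_, fun w hw => ?_⟩
  · obtain ⟨d, hd, rfl⟩ := Finset.mem_image.1 hj
    show Tame (DP g D S (dc (enc (.inl k : DI b))) p x) (DP g D S (dc (enc d)) p x)
      fun r => QP g D Q S (dc r) p x
    rw [e1, e1]
    rcases Finset.mem_union.1 hd with hd | hd
    · obtain ⟨j, hj2, rfl⟩ := Finset.mem_image.1 hd
      intro m n
      obtain ⟨q, r, h6, h7, h8⟩ := h3 ⟨j, hj2⟩ m n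
      have e2 : ∀ q : QI b, QP g D Q S (dc (enc q)) = QP g D Q S q := fun q => by rw [dc_enc]
      refine ⟨enc (.inl q : QI b), enc (.inl r : QI b), ?_, ?_, ?_⟩
      · show QP g D Q S (dc (enc _)) p x m
        rw [e2]; exact h6
      · show QP g D Q S (dc (enc _)) p x n
        rw [e2]; exact h7
      · show Scat false _ _ (QP g D Q S (dc (enc _)) p x) (QP g D Q S (dc (enc _)) p x)
        rw [e2, e2]
        exact scat_of_fl h8
    · obtain ⟨j, -, hd⟩ := Finset.mem_biUnion.1 hd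
      obtain ⟨c, -, hd⟩ := Finset.mem_biUnion.1 hd
      exact hF1 j c d hd
  · have hw' : ∀ d ∈ G, ∀ s t, DP g D S d p x (v s) (v t) ↔ DP g D S d p x (w s) (w t) := by
      intro d hd s t
      have := hw (enc d) (Finset.mem_image_of_mem _ hd) s t
      change DP g D S (dc (enc d)) p x (v s) (v t) ↔ DP g D S (dc (enc d)) p x (w s) (w t) at this
      rw [e1] at this
      exact this
    refine h5 w (fun j hj s t => ?_) fun j hj c hS => ?_
    · exact hw' (.inl j) (Finset.mem_union_left _ (Finset.mem_image_of_mem _ hj)) s t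
    · refine hF2 ⟨j, hj⟩ c w (fun d hd s t => hw' d (Finset.mem_union_right _ ?_) s t) hS
      exact Finset.mem_biUnion.2 ⟨⟨j, hj⟩, Finset.mem_univ _, Finset.mem_biUnion.2
        ⟨c, Finset.mem_univ _, hd⟩⟩

/-- **The dichotomy.** -/
theorem vc_CS (hD : ∀ k, DefB (D k)) (hQ : FamU Q) (hS : ∀ j, DefN (S j)) : VC (CS D Q S) := by
  intro B hB hi hV
  obtain ⟨α, hα, h1⟩ := (bd_CS hD hQ hS).bdd B hB hV
  have hs : α + 1 < Ordinal.omega 1 := (Cardinal.isSuccLimit_omega 1).add_one_lt hα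
  have hc : Countable (Set.Iio (α + 1)) := Pool.Agent.H899R2.VP.Dst.countable_Iio hs
  have hne : Nonempty (Set.Iio (α + 1)) := ⟨⟨α, lt_add_one α⟩⟩
  obtain ⟨g, hg⟩ := exists_surjective_nat (Set.Iio (α + 1))
  have hg1 : ∀ n, (g n).1 < Ordinal.omega 1 := fun n => (g n).2.trans hs
  have hg2 : ∀ o < α + 1, ∃ n, (g n).1 = o := by
    intro o ho
    obtain ⟨n, hn⟩ := hg ⟨o, ho⟩
    exact ⟨n, by rw [hn]⟩
  refine vc_CM (D := fun n => DP (fun n => (g n).1) D S (dc n))
    (Q := fun r => QP (fun n => (g n).1) D Q S (dc r))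
    (fun k => def_DP hg1 hD hS _) (fam_QP hg1 hD hQ hS) B hB hi fun x hx =>
      csa_sub hg2 ((bd_CS hD hQ hS).mono α (α + 1) (lt_add_one α).le x (h1 x hx))

end ext

end Pool.Agent.U97.SC
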