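import Pool.Agent.N481.VT.Chg
import Pool.Agent.H899R2.VP.Dst

set_option autoImplicit false

/-!
Quadrant-scattered relations on a linear order: the derivative, its layers, and the monotone hulls
that determine the relation.
-/

namespace Pool.Agent.U97.SC

open Set MeasureTheory
open Pool.Agent.N481.VT (SLO)

/-- the order or its reverse -/
def od (e : Bool) (l : ℕ → ℕ → Prop) (m n : ℕ) : Prop := if e = true then l m n else l n m

/-- Every nonempty set of pairs in `A × B` has an element such that the relation is constant on the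
part of the set in one of the four open quadrants at the element. If `th = true` then the constant
has to be `False`. -/
def Scat (th : Bool) (l R : ℕ → ℕ → Prop) (A B : ℕ → Prop) : Prop :=
  ∀ Z : ℕ → ℕ → Prop, (∀ m n, Z m n → A m ∧ B n) → (∃ m n, Z m n) →
    ∃ m n, Z m n ∧ ∃ e f c : Bool, (c = true → th = false) ∧
      ∀ m' n', Z m' n' → od e l m m' → od f l n n' → (R m' n' ↔ c = true)

/-- the iterated derivative -/
def Zs (th : Bool) (l R : ℕ → ℕ → Prop) (A B : ℕ → Prop) (o : Ordinal.{0}) (m n : ℕ) : Prop :=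
  A m ∧ B n ∧ ∀ o' : Ordinal.{0}, ∀ _h : o' < o, ∀ e f c : Bool, (c = true → th = false) →
    ∃ m' n', Zs th l R A B o' m' n' ∧ od e l m m' ∧ od f l n n' ∧ ¬ (R m' n' ↔ c = true)
termination_by o

/-- the points removed at stage `o` -/
def Dc (th : Bool) (l R : ℕ → ℕ → Prop) (A B : ℕ → Prop) (o : Ordinal.{0}) (e f c : Bool)
    (m n : ℕ) : Prop :=
  Zs th l R A B o m n ∧ ∀ m' n', Zs th l R A B o m' n' → od e l m m' → od f l n n' →
    (R m' n' ↔ c = true)

/-- the exceptional ones among them -/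
def Ec (th : Bool) (l R : ℕ → ℕ → Prop) (A B : ℕ → Prop) (o : Ordinal.{0}) (e f c : Bool)
    (m n : ℕ) : Prop :=
  Dc th l R A B o e f c m n ∧ ¬ (R m n ↔ c = true)

/-- the hull in the direction `e`, `f` -/
def Hl (l : ℕ → ℕ → Prop) (e f : Bool) (E : ℕ → ℕ → Prop) (m n : ℕ) : Prop :=
  ∃ m' n', E m' n' ∧ (m' = m ∨ od e l m' m) ∧ (n' = n ∨ od f l n' n)

variable {th : Bool} {l R : ℕ → ℕ → Prop} {A B : ℕ → Prop} {o o' : Ordinal.{0}} {e f c : Bool}
  {m n : ℕ}

theorem zs_iff : Zs th l R A B o m n ↔ A m ∧ B n ∧ ∀ o' : Ordinal.{0}, o' < o → ∀ e f c : Bool,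
    (c = true → th = false) →
    ∃ m' n', Zs th l R A B o' m' n' ∧ od e l m m' ∧ od f l n n' ∧ ¬ (R m' n' ↔ c = true) := by
  rw [Zs]

theorem zs_mono (h : o' ≤ o) (hz : Zs th l R A B o m n) : Zs th l R A B o' m n := by
  rw [zs_iff] at hz ⊢
  exact ⟨hz.1, hz.2.1, fun b hb => hz.2.2 b (hb.trans_le h)⟩

theorem slo_od (hl : SLO l) (e : Bool) : SLO (od e l) := by
  cases e with
  | true =>
    have : od true l = l := by
      funext m n
      simp [od]
    rw [this]
    exact hl
  | false =>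
    have : od false l = fun m n => l n m := by
      funext m n
      simp [od]
    rw [this]
    refine ⟨hl.irr, fun m n k h1 h2 => hl.tr _ _ _ h2 h1, fun m n => ?_⟩
    rcases hl.tot m n with h | h | h
    · exact Or.inl h
    · exact Or.inr (Or.inr h)
    · exact Or.inr (Or.inl h)

theorem od_not (e : Bool) (l : ℕ → ℕ → Prop) (m n : ℕ) : od (!e) l m n ↔ od e l n m := by
  cases e <;> simp [od]

/-- The layers are intersections of `Zs` with hulls. -/
theorem dc_of_hl (hl : SLO l) (h : Hl l e f (Dc th l R A B o e f c) m n) (hz : Zs th l R A B o m n) :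
    Dc th l R A B o e f c m n := by
  obtain ⟨m', n', h1, h2, h3⟩ := h
  refine ⟨hz, fun m1 n1 h4 h5 h6 => h1.2 m1 n1 h4 ?_ ?_⟩
  · rcases h2 with rfl | h2
    · exact h5
    · exact (slo_od hl e).tr _ _ _ h2 h5
  · rcases h3 with rfl | h3
    · exact h6
    · exact (slo_od hl f).tr _ _ _ h3 h6

theorem hl_self {E : ℕ → ℕ → Prop} (h : E m n) : Hl l e f E m n :=
  ⟨m, n, h, Or.inl rfl, Or.inl rfl⟩

theorem hl_left (hl : SLO l) {E : ℕ → ℕ → Prop} {m' : ℕ} (h : Hl l e f E m n)
    (hm : od e l m m') : Hl l e f E m' n := by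
  obtain ⟨x, y, h1, h2, h3⟩ := h
  refine ⟨x, y, h1, Or.inr ?_, h3⟩
  rcases h2 with rfl | h2
  · exact hm
  · exact (slo_od hl e).tr _ _ _ h2 hm

theorem hl_right (hl : SLO l) {E : ℕ → ℕ → Prop} {n' : ℕ} (h : Hl l e f E m n)
    (hn : od f l n n') : Hl l e f E m n' := by
  obtain ⟨x, y, h1, h2, h3⟩ := h
  refine ⟨x, y, h1, h2, Or.inr ?_⟩
  rcases h3 with rfl | h3
  · exact hn
  · exact (slo_od hl f).tr _ _ _ h3 hn

/-- A set of pairs without two elements in the strict order of a quadrant is determined by its two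
hulls and its two projections. -/
theorem anti_iff (hl : SLO l) {E : ℕ → ℕ → Prop}
    (hE : ∀ m n m' n', E m n → E m' n' → od e l m m' → od f l n n' → False) :
    E m n ↔ Hl l e f E m n ∧ Hl l (!e) (!f) E m n ∧ (∃ y, E m y) ∧ ∃ x, E x n := by
  constructor
  · intro h
    exact ⟨hl_self h, hl_self h, ⟨n, h⟩, ⟨m, h⟩⟩
  · rintro ⟨⟨x, y, h1, h2, h3⟩, ⟨x', y', h4, h5, h6⟩, ⟨b, h7⟩, ⟨a, h8⟩⟩
    rw [od_not] at h5 h6
    have s1 := slo_od hl e
    have s2 := slo_od hl f
    generalize hl1 : od e l = l1 at *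
    generalize hl2 : od f l = l2 at *
    by_contra hc
    -- (x, y) ≤ (m, n) ≤ (x', y'), (m, b), (a, n)
    rcases h2 with rfl | h2
    · -- x = m, so y < n
      have hy : l2 y n := by
        rcases h3 with rfl | h3
        · exact absurd h1 hc
        · exact h3
      rcases h5 with rfl | h5
      · -- x' = m, so n < y'
        have hy' : l2 n y' := by
          rcases h6 with rfl | h6
          · exact absurd h4 hc
          · exact h6
        rcases s1.tot a x' with rfl | h9 | h9
        · exact hc h8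
        · exact hE _ _ _ _ h8 h4 h9 hy'
        · exact hE _ _ _ _ h1 h8 h9 hy
      · -- m < x', y < n ≤ y'
        refine hE _ _ _ _ h1 h4 h5 ?_
        rcases h6 with rfl | h6
        · exact hy
        · exact s2.tr _ _ _ hy h6
    · -- x < m
      rcases h5 with rfl | h5
      · have hy' : l2 n y' := by
          rcases h6 with rfl | h6
          · exact absurd h4 hc
          · exact h6
        refine hE _ _ _ _ h1 h4 h2 ?_
        rcases h3 with rfl | h3
        · exact hy'
        · exact s2.tr _ _ _ h3 hy'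
      · -- x < m < x', so y = n = y'
        have hxx : l1 x x' := s1.tr _ _ _ h2 h5
        rcases h3 with rfl | h3
        · rcases h6 with rfl | h6
          · rcases s2.tot b y' with rfl | h9 | h9
            · exact hc h7
            · exact hE _ _ _ _ h7 h4 h5 h9
            · exact hE _ _ _ _ h1 h7 h2 h9
          · exact hE _ _ _ _ h1 h4 hxx h6
        · refine hE _ _ _ _ h1 h4 hxx ?_
          rcases h6 with rfl | h6
          · exact h3
          · exact s2.tr _ _ _ h3 h6

theorem ec_anti (m n m' n' : ℕ) (h : Ec th l R A B o e f c m n) (h' : Ec th l R A B o e f c m' n')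
    (h1 : od e l m m') (h2 : od f l n n') : False :=
  h'.2 (h.1.2 m' n' h'.1.1 h1 h2)

theorem ec_iff (hl : SLO l) : Ec th l R A B o e f c m n ↔ Hl l e f (Ec th l R A B o e f c) m n ∧
    Hl l (!e) (!f) (Ec th l R A B o e f c) m n ∧ (∃ y, Ec th l R A B o e f c m y) ∧
      ∃ x, Ec th l R A B o e f c x n := anti_iff hl ec_anti

/-- Every point outside stage `o` is in a layer. -/
theorem ex_layer (hA : A m) (hB : B n) (h : ¬ Zs th l R A B o m n) :
    ∃ o' < o, Zs th l R A B o' m n ∧ ∃ e f c, (c = true → th = false) ∧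
      Dc th l R A B o' e f c m n := by
  classical
  have hex : ∃ b : Ordinal.{0}, b ≤ o ∧ ¬ Zs th l R A B b m n := ⟨o, le_rfl, h⟩
  obtain ⟨b, hb, hmin⟩ := WellFounded.has_min (wellFounded_lt (α := Ordinal.{0}))
    {b | b ≤ o ∧ ¬ Zs th l R A B b m n} hex
  have h1 := hb.2
  rw [zs_iff] at h1
  push Not at h1
  obtain ⟨b', hb', e, f, c, hc, h2⟩ := h1 hA hB
  have h3 : Zs th l R A B b' m n := by
    by_contra hc
    exact hmin b' ⟨hb'.le.trans hb.1, hc⟩ hb'
  exact ⟨b', hb'.trans_le hb.1, h3, e, f, c, hc, h3, h2⟩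

/-- **Decoding.** -/
theorem dec_iff (hl : SLO l) (hA : A m) (hB : B n) (h : ¬ Zs false l R A B o m n) :
    R m n ↔ ∃ b < o, ∃ e f c, Hl l e f (Dc false l R A B b e f c) m n ∧
      (∀ b' < b, ∀ e' f' c', ¬ Hl l e' f' (Dc false l R A B b' e' f' c') m n) ∧
      (c = true ↔ ¬ Ec false l R A B b e f c m n) := by
  obtain ⟨b, hb, h1, e, f, c, -, h2⟩ := ex_layer hA hB h
  have key : ∀ b' ≤ b, ∀ e' f' c', Hl l e' f' (Dc false l R A B b' e' f' c') m n →
      Dc false l R A B b' e' f' c' m n := fun b' hb' e' f' c' h3 => dc_of_hl hl h3 (zs_mono hb' h1)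
  have low : ∀ b' < b, ∀ e' f' c', ¬ Hl l e' f' (Dc false l R A B b' e' f' c') m n := by
    intro b' hb' e' f' c' h3
    have h4 := key b' hb'.le e' f' c' h3
    rw [zs_iff] at h1
    obtain ⟨m', n', h5, h6, h7, h8⟩ := h1.2.2 b' hb' e' f' c' fun _ => rfl
    exact h8 (h4.2 m' n' h5 h6 h7)
  have val : ∀ e f c, Dc false l R A B b e f c m n →
      (R m n ↔ (c = true ↔ ¬ Ec false l R A B b e f c m n)) := by
    intro e f c h3
    have h4 : Ec false l R A B b e f c m n ↔ ¬ (R m n ↔ c = true) := by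
      unfold Ec
      exact ⟨fun h => h.2, fun h => ⟨h3, h⟩⟩
    rw [h4]
    tauto
  constructor
  · intro h3
    exact ⟨b, hb, e, f, c, hl_self h2, low, (val e f c h2).1 h3⟩
  · rintro ⟨b', hb', e', f', c', h3, h4, h5⟩
    rcases lt_trichotomy b' b with h6 | rfl | h6
    · exact absurd h3 (low b' h6 e' f' c')
    · exact (val e' f' c' (key b' le_rfl e' f' c' h3)).2 h5
    · exact absurd (hl_self h2) (h4 b h6 e f c)

end Pool.Agent.U97.SC
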