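import Pool.Agent.U97.SC.Cod

set_option autoImplicit false

/-!
Coanalytic conditions with bounded approximations, and the class of structures whose relations are
locally determined by scattered relations.
-/

namespace Pool.Agent.U97.SC

open Set MeasureTheory
open Pool.Agent.H533R2.VO (RS RIso VC Dich)
open Pool.Agent.H533R2.VS
open Pool.Agent.H566P (R2)
open Pool.Agent.Y558.MC (MAr vcu_MAr coan_MAr inv_MAr)
open Pool.Agent.TH425.FF (PCanon PExp novikov cun_vcu pexp_vcu pexp_coan pexp_inv)
open Pool.Agent.N481.VT (SLO)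
open Pool.Agent.N481.VT.PM (DefB FamU fs fs_surj m_rel)

section bd

variable {Y : Type} [TopologicalSpace Y] [PolishSpace Y] [MeasurableSpace Y] [BorelSpace Y]

/-- `G` is coanalytic, and on each Borel set contained in `G` one of the approximations `H α`
holds, for a countable ordinal `α`. -/
structure Bd (G : Y → Prop) (H : Ordinal.{0} → Y → Prop) : Prop where
  coan : AnalyticSet {y | ¬ G y}
  mono : ∀ α β, α ≤ β → ∀ y, H α y → H β y
  bdd : ∀ K : Set Y, MeasurableSet K → (∀ y ∈ K, G y) →
    ∃ α : Ordinal.{0}, α < Ordinal.omega 1 ∧ ∀ y ∈ K, H α y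

theorem bd_meas {G : Y → Prop} (h : Measurable G) : Bd G fun _ => G :=
  ⟨(measurableSet_setOfPred.2 h.not).analyticSet, fun _ _ _ _ h => h,
    fun _ _ h => ⟨0, Ordinal.omega_pos 1, h⟩⟩

theorem bd_forall {ι : Type} [Countable ι] {G : ι → Y → Prop} {H : ι → Ordinal.{0} → Y → Prop}
    (h : ∀ i, Bd (G i) (H i)) : Bd (fun y => ∀ i, G i y) fun α y => ∀ i, H i α y := by
  refine ⟨?_, fun α β hab y hy i => (h i).mono α β hab y (hy i), fun K hK hG => ?_⟩
  · have e1 : {y | ¬ ∀ i, G i y} = ⋃ i, {y | ¬ G i y} := by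
      ext y
      simp
    rw [e1]
    exact AnalyticSet.iUnion fun i => (h i).coan
  · choose α hα1 hα2 using fun i => (h i).bdd K hK fun y hy => hG y hy i
    refine ⟨iSup α, Ordinal.iSup_lt_omega_one hα1, fun y hy i => ?_⟩
    exact (h i).mono _ _ (Ordinal.le_iSup α i) y (hα2 i y hy)

theorem bd_exists_nat {G : ℕ → Y → Prop} {H : ℕ → Ordinal.{0} → Y → Prop}
    (h : ∀ i, Bd (G i) (H i)) : Bd (fun y => ∃ i, G i y) fun α y => ∃ i, H i α y := by
  refine ⟨?_, ?_, fun K hK hG => ?_⟩
  · have e1 : {y | ¬ ∃ i, G i y} = ⋂ i, {y | ¬ G i y} := by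
      ext y
      simp
    rw [e1]
    exact AnalyticSet.iInter fun i => (h i).coan
  · rintro α β hab y ⟨i, hy⟩
    exact ⟨i, (h i).mono α β hab y hy⟩
  · obtain ⟨E, hE1, hE2, hE3⟩ := novikov (fun i => K ∩ {y | ¬ G i y})
      (fun i => by
        have h1 : K ∩ {y | ¬ G i y} = ⋂ b : Bool, (if b = true then K else {y | ¬ G i y}) := by
          ext y
          simp [mem_iInter]
          tauto
        rw [h1]
        refine AnalyticSet.iInter fun b => ?_
        split_ifs
        · exact hK.analyticSet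
        · exact (h i).coan)
      (by
        rw [eq_empty_iff_forall_notMem]
        intro y hy
        rw [mem_iInter] at hy
        obtain ⟨i, hi⟩ := hG y (hy 0).1
        exact (hy i).2 hi)
    have h1 : ∀ i, ∀ y ∈ K \ E i, G i y := by
      rintro i y ⟨hy1, hy2⟩
      by_contra hc
      exact hy2 (hE2 i ⟨hy1, hc⟩)
    choose α hα1 hα2 using fun i => (h i).bdd (K \ E i) (hK.diff (hE1 i)) (h1 i)
    refine ⟨iSup α, Ordinal.iSup_lt_omega_one hα1, fun y hy => ?_⟩
    have h2 : ∃ i, y ∉ E i := by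
      by_contra hc
      push Not at hc
      have h3 : y ∈ ⋂ i, E i := mem_iInter.2 hc
      rw [hE3] at h3
      exact h3
    obtain ⟨i, hi⟩ := h2
    exact ⟨i, (h i).mono _ _ (Ordinal.le_iSup α i) y (hα2 i y ⟨hy, hi⟩)⟩

theorem bd_exists {ι : Type} [Countable ι] {G : ι → Y → Prop} {H : ι → Ordinal.{0} → Y → Prop}
    (h : ∀ i, Bd (G i) (H i)) : Bd (fun y => ∃ i, G i y) fun α y => ∃ i, H i α y := by
  rcases isEmpty_or_nonempty ι with hι | hι
  · have e1 : ∀ P : ι → Y → Prop, (fun y => ∃ i, P i y) = fun _ => False := by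
      intro P
      funext y
      simp
    have h1 := bd_meas (Y := Y) (G := fun _ => False) measurable_const
    refine ⟨?_, ?_, ?_⟩
    · simpa [e1] using h1.coan
    · rintro α β _ y ⟨i, -⟩
      exact hι.elim i
    · intro K hK hG
      refine ⟨0, Ordinal.omega_pos 1, fun y hy => ?_⟩
      obtain ⟨i, -⟩ := hG y hy
      exact hι.elim i
  · obtain ⟨f, hf⟩ := exists_surjective_nat ι
    have h1 := bd_exists_nat fun n => h (f n)
    have e1 : ∀ P : ι → Y → Prop, (fun y => ∃ n, P (f n) y) = fun y => ∃ i, P i y := by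
      intro P
      funext y
      exact propext (hf.exists (p := fun i => P i y)).symm
    rw [e1 G] at h1
    have e2 : (fun α y => ∃ n, H (f n) α y) = fun α y => ∃ i, H i α y := by
      funext α
      exact e1 fun i => H i α
    rw [e2] at h1
    exact h1

theorem bd_and {G1 G2 : Y → Prop} {H1 H2 : Ordinal.{0} → Y → Prop} (h1 : Bd G1 H1)
    (h2 : Bd G2 H2) : Bd (fun y => G1 y ∧ G2 y) fun α y => H1 α y ∧ H2 α y := by
  have h := bd_forall (ι := Bool) (G := fun b => if b = true then G1 else G2)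
    (H := fun b => if b = true then H1 else H2) (fun b => by
      cases b
      · exact h2
      · exact h1)
  have e1 : (fun y => ∀ b : Bool, (if b = true then G1 else G2) y) = fun y => G1 y ∧ G2 y := by
    funext y
    simp [and_comm]
  have e2 : (fun α y => ∀ b : Bool, (if b = true then H1 else H2) α y) =
      fun α y => H1 α y ∧ H2 α y := by
    funext α y
    simp [and_comm]
  rw [e1, e2] at h
  exact h

theorem bd_imp {P : Y → Prop} {G : Y → Prop} {H : Ordinal.{0} → Y → Prop} (hP : Measurable P)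
    (h : Bd G H) : Bd (fun y => P y → G y) fun α y => P y → H α y := by
  have h' := bd_exists (ι := Bool) (G := fun b => if b = true then (fun y => ¬ P y) else G)
    (H := fun b => if b = true then (fun _ y => ¬ P y) else H) (fun b => by
      cases b
      · exact h
      · exact bd_meas hP.not)
  have e1 : (fun y => ∃ b : Bool, (if b = true then (fun y => ¬ P y) else G) y) =
      fun y => P y → G y := by
    funext y
    by_cases hy : P y <;> simp [hy]
  have e2 : (fun α y => ∃ b : Bool, (if b = true then (fun _ y => ¬ P y) else H) α y) =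
      fun α y => P y → H α y := by
    funext α y
    by_cases hy : P y <;> simp [hy]
  rw [e1, e2] at h'
  exact h'

theorem coan_scat {th : Bool} {l R : Y → ℕ → ℕ → Prop} {A B : Y → ℕ → Prop}
    (hl : ∀ m n, Measurable fun y => l y m n) (hR : ∀ m n, Measurable fun y => R y m n)
    (hA : ∀ m, Measurable fun y => A y m) (hB : ∀ m, Measurable fun y => B y m) :
    AnalyticSet {y | ¬ Scat th (l y) (R y) (A y) (B y)} := by
  have b1 : BorelSpace (ℕ → Bool) := Pi.borelSpace
  have b2 : BorelSpace (ℕ → ℕ → Bool) := Pi.borelSpace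
  have b6 : BorelSpace (Y × (ℕ → ℕ → Bool)) := Prod.borelSpace
  have b7 : PolishSpace (Y × (ℕ → ℕ → Bool)) := polish_of
  have hz : ∀ m n, Measurable fun q : Y × (ℕ → ℕ → Bool) => q.2 m n = true := fun m n => by
    have h1 : Measurable fun q : Y × (ℕ → ℕ → Bool) => q.2 m n := (measurable_pi_apply n).comp
      ((measurable_pi_apply m).comp measurable_snd)
    exact measurableSet_setOfPred.1 (h1 (measurableSet_singleton true))
  let W : Set (Y × (ℕ → ℕ → Bool)) := {q | (∀ m n, q.2 m n = true → A q.1 m ∧ B q.1 n) ∧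
    (∃ m n, q.2 m n = true) ∧ ∀ m n, q.2 m n = true → ∀ e f c : Bool,
      (c = true → th = false) → ∃ m' n', q.2 m' n' = true ∧ od e (l q.1) m m' ∧ od f (l q.1) n n' ∧ ¬ (R q.1 m' n' ↔ c = true)}
  have hW : MeasurableSet W := by
    refine measurableSet_setOfPred.2 ?_
    refine (Measurable.forall fun m => Measurable.forall fun n => (hz m n).imp
      (((hA m).comp measurable_fst).and ((hB n).comp measurable_fst))).and ?_
    refine (Measurable.exists fun m => Measurable.exists fun n => hz m n).and ?_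
    refine Measurable.forall fun m => Measurable.forall fun n => (hz m n).imp ?_
    refine Measurable.forall fun e => Measurable.forall fun f => Measurable.forall fun c => ?_
    refine measurable_const.imp ?_
    refine Measurable.exists fun m' => Measurable.exists fun n' => (hz m' n').and ?_
    exact ((m_od hl e m m').comp measurable_fst).and (((m_od hl f n n').comp measurable_fst).and
      (((hR m' n').comp measurable_fst).iff measurable_const).not)
  have e1 : {y | ¬ Scat th (l y) (R y) (A y) (B y)} = Prod.fst '' W := by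
    classical
    ext y
    constructor
    · intro h
      replace h : ¬ Scat th (l y) (R y) (A y) (B y) := h
      unfold Scat at h
      push Not at h
      obtain ⟨Z, h1, h2, h3⟩ := h
      refine ⟨(y, fun m n => decide (Z m n)), ⟨?_, ?_, ?_⟩, rfl⟩
      · intro m n h
        exact h1 m n (of_decide_eq_true h)
      · obtain ⟨m, n, h⟩ := h2
        exact ⟨m, n, decide_eq_true h⟩
      · intro m n h e f c hc
        obtain ⟨m', n', h4, h5, h6, h7⟩ := h3 m n (of_decide_eq_true h) e f c hc
        refine ⟨m', n', decide_eq_true h4, h5, h6, ?_⟩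
        show ¬ (R y m' n' ↔ c = true)
        tauto
    · rintro ⟨q, ⟨h1, h2, h3⟩, rfl⟩ h
      obtain ⟨m, n, h4, e, f, c, hc, h5⟩ := h (fun m n => q.2 m n = true) h1 h2
      obtain ⟨m', n', h6, h7, h8, h9⟩ := h3 m n h4 e f c hc
      exact h9 (h5 m' n' h6 h7 h8)
  rw [e1]
  exact hW.analyticSet.image_of_continuous continuous_fst

theorem bd_scat {th : Bool} {l R : Y → ℕ → ℕ → Prop} {A B : Y → ℕ → Prop}
    (hl : ∀ m n, Measurable fun y => l y m n) (hR : ∀ m n, Measurable fun y => R y m n)
    (hA : ∀ m, Measurable fun y => A y m) (hB : ∀ m, Measurable fun y => B y m) :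
    Bd (fun y => Scat th (l y) (R y) (A y) (B y)) fun α y => Fl α th (l y) (R y) (A y) (B y) := by
  refine ⟨coan_scat hl hR hA hB, ?_, fun K hK hG => bounded hl hR hA hB hK hG⟩
  intro α β hab y hy m n hz
  exact hy m n (zs_mono hab hz)

end bd

/-! ### The classes -/

/-- `R` is scattered on rectangles which cover all pairs. -/
def Tame (l R : ℕ → ℕ → Prop) (Q : ℕ → ℕ → Prop) : Prop :=
  ∀ m n, ∃ q r, Q q m ∧ Q r n ∧ Scat false l R (Q q) (Q r)

section cls

variable {a : ℕ → ℕ}

/-- The value `x i v` is implied by the pattern of `v` with respect to the relations `D j`. -/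
def Dtm (D : ℕ → ℕ → ℕ → Prop) (x : RS a) (i : ℕ) (v : Fin (a i) → ℕ) (J : Finset ℕ) : Prop :=
  ∀ w : Fin (a i) → ℕ, (∀ j ∈ J, ∀ s t, D j (v s) (v t) ↔ D j (w s) (w t)) → x i w = true

variable (D : ℕ → List ℕ → RS a → ℕ → ℕ → Prop) (Q : ℕ → List ℕ → RS a → ℕ → Prop)

/-- the class -/
def CM (x : RS a) : Prop := ∃ (k : ℕ) (p : List ℕ), SLO (D k p x) ∧ ∀ (i : ℕ) (v : Fin (a i) → ℕ),
  x i v = true → ∃ J : Finset ℕ, (∀ j : J, Tame (D k p x) (D j p x) fun r => Q r p x) ∧
    Dtm (fun j => D j p x) x i v J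

/-- the bounded classes -/
def CMA (α : Ordinal.{0}) (x : RS a) : Prop := ∃ (k : ℕ) (p : List ℕ), SLO (D k p x) ∧
  ∀ (i : ℕ) (v : Fin (a i) → ℕ),
  x i v = true → ∃ J : Finset ℕ, (∀ j : J, Gd α (D k p x) (D j p x) fun r => Q r p x) ∧
    Dtm (fun j => D j p x) x i v J

/-- a larger class -/
def WC (α : Ordinal.{0}) (g : ℕ → Ordinal.{0}) (x : RS a) : Prop := ∃ k, PExp
  (fun p (x : RS a) => cc α g (D k p x) (fun r => Q r p x) (fun j => D j p x) x)
    (fun _ => (dd g : R2 → RS a)) MAr x

variable {D Q}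

theorem m_slo {Y : Type} [MeasurableSpace Y] {l : Y → ℕ → ℕ → Prop}
    (hl : ∀ m n, Measurable fun y => l y m n) : Measurable fun y => SLO (l y) := by
  have e1 : (fun y => SLO (l y)) = fun y => (∀ m, ¬ l y m m) ∧
      (∀ m n k, l y m n → l y n k → l y m k) ∧ ∀ m n, m = n ∨ l y m n ∨ l y n m := by
    funext y
    exact propext ⟨fun h => ⟨h.1, h.2, h.3⟩, fun h => ⟨h.1, h.2.1, h.2.2⟩⟩
  rw [e1]
  exact (Measurable.forall fun m => (hl m m).not).and ((Measurable.forall fun m =>
    Measurable.forall fun n => Measurable.forall fun k => (hl m n).imp ((hl n k).imp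
      (hl m k))).and (Measurable.forall fun m => Measurable.forall fun n =>
        measurable_const.or ((hl m n).or (hl n m))))

theorem bd_CM (hD : ∀ k, DefB (D k)) (hQ : FamU Q) :
    Bd (CM D Q) (fun α => CMA D Q α) := by
  have b1 : BorelSpace ((i : ℕ) → (Fin (a i) → ℕ) → Bool) := inferInstance
  have b5 : PolishSpace (RS a) := polish_of
  have h2 : ∀ p r m, Measurable fun x => Q r p x m := fun p r m =>
    measurableSet_setOfPred.1 (hQ.meas r p m)
  have h3 : ∀ p j m n, Measurable fun x => D j p x m n := fun p j m n =>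
    measurableSet_setOfPred.1 ((hD j).meas p m n)
  refine bd_exists fun k => bd_exists fun p => bd_and (bd_meas (m_slo (h3 p k)))
    (bd_forall fun i => bd_forall fun v => bd_imp (m_rel i v) (bd_exists fun J => bd_and
      (bd_forall fun j => bd_forall fun m => bd_forall fun n => bd_exists fun q =>
        bd_exists fun r => bd_and (bd_meas (h2 p q m)) (bd_and (bd_meas (h2 p r n))
          (bd_scat (h3 p k) (h3 p j) (h2 p q) (h2 p r)))) (bd_meas ?_)))
  unfold Dtm
  exact Measurable.forall fun w => (Measurable.forall fun j => measurable_const.imp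
    (Measurable.forall fun s => Measurable.forall fun t => (h3 p j _ _).iff (h3 p j _ _))).imp
      (m_rel i w)

theorem vcu_WC {α : Ordinal.{0}} {g : ℕ → Ordinal.{0}} (hα : α < Ordinal.omega 1)
    (hg : ∀ n, g n < Ordinal.omega 1) (hD : ∀ k, DefB (D k)) (hQ : FamU Q) :
    VCu (WC D Q α g) :=
  cun_vcu _
    (fun k => pexp_vcu (pcanon hα hg (hD k) hQ hD) vcu_MAr coan_MAr inv_MAr)
    (fun k => pexp_coan (pcanon hα hg (hD k) hQ hD) coan_MAr)
    (fun k => pexp_inv (pcanon hα hg (hD k) hQ hD) inv_MAr)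

theorem cma_sub {α : Ordinal.{0}} {g : ℕ → Ordinal.{0}} (hg1 : ∀ n, g n < α)
    (hg2 : ∀ o < α, ∃ n, g n = o) {x : RS a} (h : CMA D Q α x) : WC D Q α g x := by
  obtain ⟨k, p, h1, h2⟩ := h
  refine ⟨k, p, mar_cc h1, dd_cc h1 hg1 hg2 fun i v hv => ?_⟩
  obtain ⟨J, h3, h4⟩ := h2 i v hv
  exact ⟨J, fun j hj => h3 ⟨j, hj⟩, h4⟩

/-- **The dichotomy.** -/
theorem vc_CM (hD : ∀ k, DefB (D k)) (hQ : FamU Q) : VC (CM D Q) := by
  intro B hB hi hV
  obtain ⟨α, hα, h1⟩ := (bd_CM hD hQ).bdd B hB hV
  have hs : α + 1 < Ordinal.omega 1 := (Cardinal.isSuccLimit_omega 1).add_one_lt hα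
  have hc : Countable (Set.Iio (α + 1)) := Pool.Agent.H899R2.VP.Dst.countable_Iio hs
  have hne : Nonempty (Set.Iio (α + 1)) := ⟨⟨α, lt_add_one α⟩⟩
  obtain ⟨g, hg⟩ := exists_surjective_nat (Set.Iio (α + 1))
  have hg1 : ∀ n, (g n).1 < α + 1 := fun n => (g n).2
  have hg2 : ∀ o < α + 1, ∃ n, (g n).1 = o := by
    intro o ho
    obtain ⟨n, hn⟩ := hg ⟨o, ho⟩
    exact ⟨n, by rw [hn]⟩
  refine vs_plain _ _ (vcu_WC (α := α + 1) (g := fun n => (g n).1) hs
    (fun n => (hg1 n).trans hs) hD hQ) B hB hi fun x hx => cma_sub hg1 hg2 ?_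
  exact (bd_CM hD hQ).mono α (α + 1) (lt_add_one α).le x (h1 x hx)

end cls

end Pool.Agent.U97.SC
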