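import Pool.Agent.U97.SC.Basic
import Pool.Agent.H899R2.VP.Bnd

set_option autoImplicit false

/-!
Boundedness of the ranks of scattered relations on Borel sets.
-/

namespace Pool.Agent.U97.SC

open Set MeasureTheory
open Pool.Agent.N481.VT (SLO)
open Pool.Agent.H899R2.VP (pigeon)

theorem polish_of {X : Type*} [TopologicalSpace X] [h1 : SecondCountableTopology X]
    [h2 : TopologicalSpace.IsCompletelyMetrizableSpace X] : PolishSpace X := { h1, h2 with }

/-- codes for a structure with two binary relations and two sets -/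
abbrev Cf : Type := (ℕ → ℕ → Bool) × (ℕ → ℕ → Bool) × (ℕ → Bool) × (ℕ → Bool)

def cL (κ : Cf) : ℕ → ℕ → Prop := fun m n => κ.1 m n = true
def cR (κ : Cf) : ℕ → ℕ → Prop := fun m n => κ.2.1 m n = true
def cA (κ : Cf) : ℕ → Prop := fun m => κ.2.2.1 m = true
def cB (κ : Cf) : ℕ → Prop := fun m => κ.2.2.2 m = true

/-- the witness relation -/
def Lk (κ : Cf) (e f c : Bool) (u v : ℕ × ℕ) : Prop :=
  od e (cL κ) u.1 v.1 ∧ od f (cL κ) u.2 v.2 ∧ ¬ (cR κ v.1 v.2 ↔ c = true)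

theorem closed_bool {X : Type} [TopologicalSpace X] {f : X → Bool} (hf : Continuous f) (b : Bool) :
    IsClosed {x | f x = b} := (isClosed_singleton (x := b)).preimage hf

theorem closed_cA (m : ℕ) : IsClosed {κ : Cf | cA κ m} :=
  closed_bool ((continuous_apply m).comp (continuous_fst.comp (continuous_snd.comp continuous_snd)))
    true

theorem closed_cB (m : ℕ) : IsClosed {κ : Cf | cB κ m} :=
  closed_bool ((continuous_apply m).comp (continuous_snd.comp (continuous_snd.comp continuous_snd)))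
    true

theorem closed_od (e : Bool) (m n : ℕ) : IsClosed {κ : Cf | od e (cL κ) m n} := by
  cases e with
  | true =>
    have e1 : {κ : Cf | od true (cL κ) m n} = {κ : Cf | κ.1 m n = true} := by
      ext κ
      simp [od, cL]
    rw [e1]
    exact closed_bool ((continuous_apply n).comp ((continuous_apply m).comp continuous_fst)) true
  | false =>
    have e1 : {κ : Cf | od false (cL κ) m n} = {κ : Cf | κ.1 n m = true} := by
      ext κ
      simp [od, cL]
    rw [e1]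
    exact closed_bool ((continuous_apply m).comp ((continuous_apply n).comp continuous_fst)) true

theorem closed_Lk (e f c : Bool) (u v : ℕ × ℕ) : IsClosed {κ : Cf | Lk κ e f c u v} := by
  have h1 : {κ : Cf | Lk κ e f c u v} = {κ : Cf | od e (cL κ) u.1 v.1} ∩
      ({κ : Cf | od f (cL κ) u.2 v.2} ∩ {κ : Cf | κ.2.1 v.1 v.2 = !c}) := by
    ext κ
    show _ ∧ _ ∧ _ ↔ _ ∧ _ ∧ _
    refine and_congr Iff.rfl (and_congr Iff.rfl ?_)
    show ¬ (κ.2.1 v.1 v.2 = true ↔ c = true) ↔ κ.2.1 v.1 v.2 = !c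
    cases κ.2.1 v.1 v.2 <;> cases c <;> simp
  rw [h1]
  exact (closed_od _ _ _).inter ((closed_od _ _ _).inter (closed_bool
    ((continuous_apply v.2).comp ((continuous_apply v.1).comp
      (continuous_fst.comp continuous_snd))) _))

/-- the derivative for a code -/
def cZ (th : Bool) (κ : Cf) (o : Ordinal.{0}) (u : ℕ × ℕ) : Prop :=
  Zs th (cL κ) (cR κ) (cA κ) (cB κ) o u.1 u.2

/-- the invariant of the construction -/
def Ivt (th : Bool) (g : (ℕ → ℕ) → Cf) (n : ℕ) (s : ℕ → ℕ) (F : Finset (ℕ × ℕ)) (T : Set Cf) : Prop :=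
  IsClosed T ∧ ∀ β : Ordinal.{0}, β < Ordinal.omega 1 → ∃ z : ℕ → ℕ, (∀ i < n, z i = s i) ∧
    (∀ u ∈ F, cZ th (g z) β u) ∧ g z ∈ T

/-- what is achieved in one step -/
def Ach (th : Bool) (F F' : Finset (ℕ × ℕ)) (κ : Cf) : Prop :=
  ∀ u ∈ F, cA κ u.1 ∧ cB κ u.2 ∧ ∀ e f c, (c = true → th = false) → ∃ v ∈ F', Lk κ e f c u v

theorem ivt_step {th : Bool} {g : (ℕ → ℕ) → Cf} {n : ℕ} {s : ℕ → ℕ} {F : Finset (ℕ × ℕ)} {T : Set Cf}
    (h : Ivt th g n s F T) : ∃ (k : ℕ) (F' : Finset (ℕ × ℕ)) (T' : Set Cf),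
      Ivt th g (n + 1) (Function.update s n k) F' T' ∧ T' ⊆ T ∧ ∀ κ ∈ T', Ach th F F' κ := by
  classical
  obtain ⟨hT, h⟩ := h
  obtain ⟨⟨k, w⟩, hk⟩ := pigeon (κ := ℕ × (F → {d : Bool × Bool × Bool // d.2.2 = true → th = false} → ℕ × ℕ))
    (fun β q => ∃ z : ℕ → ℕ, (∀ i < n, z i = s i) ∧ z n = q.1 ∧ g z ∈ T ∧
      ∀ u : F, (cA (g z) u.1.1 ∧ cB (g z) u.1.2) ∧ ∀ d, cZ th (g z) β (q.2 u d) ∧
        Lk (g z) d.1.1 d.1.2.1 d.1.2.2 u.1 (q.2 u d))
    (by
      rintro β γ q hγ ⟨z, h1, h2, h3, h4⟩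
      exact ⟨z, h1, h2, h3, fun u => ⟨(h4 u).1, fun d => ⟨zs_mono hγ ((h4 u).2 d).1,
        ((h4 u).2 d).2⟩⟩⟩)
    (by
      intro β hβ
      have hs : β + 1 < Ordinal.omega 1 := (Cardinal.isSuccLimit_omega 1).add_one_lt hβ
      obtain ⟨z, hz1, hz2, hz3⟩ := h _ hs
      have hw : ∀ (u : F) (d : {d : Bool × Bool × Bool // d.2.2 = true → th = false}),
          ∃ v, cZ th (g z) β v ∧ Lk (g z) d.1.1 d.1.2.1 d.1.2.2 u.1 v := by
        intro u d
        have h1 := hz2 u.1 u.2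
        unfold cZ at h1
        rw [zs_iff] at h1
        obtain ⟨m', n', h2, h3, h4, h5⟩ := h1.2.2 β (lt_add_one _) d.1.1 d.1.2.1 d.1.2.2 d.2
        exact ⟨(m', n'), h2, h3, h4, h5⟩
      choose w hw using hw
      refine ⟨(z n, w), z, hz1, rfl, hz3, fun u => ⟨?_, hw u⟩⟩
      have h1 := hz2 u.1 u.2
      unfold cZ at h1
      rw [zs_iff] at h1
      exact ⟨h1.1, h1.2.1⟩)
  let F' : Finset (ℕ × ℕ) := Finset.univ.image fun q : F × {d : Bool × Bool × Bool //
    d.2.2 = true → th = false} => w q.1 q.2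
  let T' : Set Cf := T ∩ {κ | ∀ u : F, (cA κ u.1.1 ∧ cB κ u.1.2) ∧ ∀ d : {d : Bool × Bool × Bool //
    d.2.2 = true → th = false}, Lk κ d.1.1 d.1.2.1 d.1.2.2 u.1 (w u d)}
  refine ⟨k, F', T', ⟨?_, ?_⟩, inter_subset_left, ?_⟩
  · refine hT.inter ?_
    simp only [ofPred_forall, ofPred_and]
    exact isClosed_iInter fun u => ((closed_cA _).inter (closed_cB _)).inter
      (isClosed_iInter fun d => closed_Lk _ _ _ _ _)
  · intro β hβ
    obtain ⟨z, h1, h2, h3, h4⟩ := hk β hβ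
    refine ⟨z, fun i hi => ?_, ?_, h3, fun u => ⟨(h4 u).1, fun d => ((h4 u).2 d).2⟩⟩
    · rcases Nat.lt_succ_iff_lt_or_eq.1 hi with hi | rfl
      · rw [Function.update_of_ne hi.ne]; exact h1 i hi
      · rw [Function.update_self]; exact h2
    · intro v hv
      obtain ⟨q, -, rfl⟩ := Finset.mem_image.1 hv
      exact ((h4 q.1).2 q.2).1
  · rintro κ ⟨-, hκ⟩ u hu
    refine ⟨(hκ ⟨u, hu⟩).1.1, (hκ ⟨u, hu⟩).1.2, fun e f c hc => ⟨w ⟨u, hu⟩ ⟨(e, f, c), hc⟩,
      Finset.mem_image.2 ⟨(⟨u, hu⟩, ⟨(e, f, c), hc⟩), Finset.mem_univ _, rfl⟩,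
      (hκ ⟨u, hu⟩).2 ⟨(e, f, c), hc⟩⟩⟩

theorem tree (th : Bool) (g : (ℕ → ℕ) → Cf) (hg : Continuous g)
    (h : ∀ ξ : Ordinal.{0}, ξ < Ordinal.omega 1 → ∃ z u, cZ th (g z) ξ u) :
    ∃ z, ¬ Scat th (cL (g z)) (cR (g z)) (cA (g z)) (cB (g z)) := by
  classical
  obtain ⟨u0, hu0⟩ := pigeon (κ := ℕ × ℕ) (fun β u => ∃ z : ℕ → ℕ, cZ th (g z) β u)
    (by
      rintro β γ κ hγ ⟨z, h1⟩
      exact ⟨z, zs_mono hγ h1⟩)
    (by
      intro β hβ
      obtain ⟨z, u, hz⟩ := h β hβ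
      exact ⟨u, z, hz⟩)
  have h0 : Ivt th g 0 (fun _ => 0) {u0} univ := by
    refine ⟨isClosed_univ, fun β hβ => ?_⟩
    obtain ⟨z, hz⟩ := hu0 β hβ
    refine ⟨z, fun i hi => absurd hi (Nat.not_lt_zero i), fun u hu => ?_, mem_univ _⟩
    rw [Finset.mem_singleton.1 hu]
    exact hz
  obtain ⟨S, hS0, hS⟩ : ∃ S : ℕ → (ℕ → ℕ) × Finset (ℕ × ℕ) × Set Cf, (S 0).2.1 = {u0} ∧
      ∀ n, Ivt th g n (S n).1 (S n).2.1 (S n).2.2 ∧ (S (n + 1)).2.2 ⊆ (S n).2.2 ∧
        (∀ κ ∈ (S (n + 1)).2.2, Ach th (S n).2.1 (S (n + 1)).2.1 κ) ∧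
        ∃ k, (S (n + 1)).1 = Function.update (S n).1 n k := by
    have hst : ∀ n (σ : {σ : (ℕ → ℕ) × Finset (ℕ × ℕ) × Set Cf // Ivt th g n σ.1 σ.2.1 σ.2.2}),
        ∃ τ : {σ : (ℕ → ℕ) × Finset (ℕ × ℕ) × Set Cf // Ivt th g (n + 1) σ.1 σ.2.1 σ.2.2},
          τ.1.2.2 ⊆ σ.1.2.2 ∧ (∀ κ ∈ τ.1.2.2, Ach th σ.1.2.1 τ.1.2.1 κ) ∧
            ∃ k, τ.1.1 = Function.update σ.1.1 n k := by
      rintro n ⟨σ, hσ⟩
      obtain ⟨k, F', T', hh1, hh2, hh3⟩ := ivt_step hσ
      exact ⟨⟨(Function.update σ.1 n k, F', T'), hh1⟩, hh2, hh3, k, rfl⟩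
    choose F hF using hst
    let G : ∀ n, {σ : (ℕ → ℕ) × Finset (ℕ × ℕ) × Set Cf // Ivt th g n σ.1 σ.2.1 σ.2.2} :=
      fun n => Nat.rec ⟨(fun _ => 0, {u0}, univ), h0⟩ (fun n σ => F n σ) n
    exact ⟨fun n => (G n).1, rfl, fun n => ⟨(G n).2, hF n (G n)⟩⟩
  choose hinv hsub hach k hk using hS
  set z : ℕ → ℕ := fun i => (S (i + 1)).1 i with hz
  have hmono : ∀ n m, n ≤ m → (S m).2.2 ⊆ (S n).2.2 := by
    intro n m hnm
    induction hnm with
    | refl => exact Subset.rfl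
    | step _ ih => exact (hsub _).trans ih
  have hpre : ∀ n, ∀ i < n, (S n).1 i = z i := by
    intro n
    induction n with
    | zero => intro i hi; exact absurd hi (Nat.not_lt_zero i)
    | succ n ih =>
      intro i hi
      rcases Nat.lt_succ_iff_lt_or_eq.1 hi with hi | rfl
      · rw [hk n, Function.update_of_ne hi.ne]
        exact ih i hi
      · rfl
  have hp : ∀ n, g z ∈ (S n).2.2 := by
    intro n
    have hzm : ∀ m, ∃ w : ℕ → ℕ, (∀ i < m, w i = z i) ∧ (n ≤ m → g w ∈ (S n).2.2) := by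
      intro m
      obtain ⟨w, hw1, -, hw2⟩ := (hinv m).2 0 (Ordinal.omega_pos 1)
      exact ⟨w, fun i hi => (hw1 i hi).trans (hpre m i hi), fun hnm => hmono n m hnm hw2⟩
    choose w hw1 hw2 using hzm
    have hlim : Filter.Tendsto w Filter.atTop (nhds z) := by
      rw [tendsto_pi_nhds]
      intro i
      apply tendsto_const_nhds.congr'
      filter_upwards [Filter.eventually_gt_atTop i] with m hm
      exact (hw1 m i hm).symm
    have hlim2 := (hg.tendsto z).comp hlim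
    exact (hinv n).1.mem_of_tendsto hlim2
      (by filter_upwards [Filter.eventually_ge_atTop n] with m hm using hw2 m hm)
  refine ⟨z, fun hsc => ?_⟩
  have ha : ∀ n, Ach th (S n).2.1 (S (n + 1)).2.1 (g z) := fun n => hach n _ (hp (n + 1))
  obtain ⟨m, n, ⟨i, hi⟩, e, f, c, hc0, hc⟩ := hsc (fun m n => ∃ i, (m, n) ∈ (S i).2.1)
    (by
      rintro m n ⟨i, hi⟩
      exact ⟨(ha i _ hi).1, (ha i _ hi).2.1⟩)
    ⟨u0.1, u0.2, 0, by rw [hS0]; simp⟩
  obtain ⟨v, hv, h1, h2, h3⟩ := (ha i _ hi).2.2 e f c hc0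
  exact h3 (hc v.1 v.2 ⟨i + 1, hv⟩ h1 h2)

/-- **Boundedness.** -/
theorem bounded {th : Bool} {Y : Type} [TopologicalSpace Y] [PolishSpace Y] [MeasurableSpace Y] [BorelSpace Y]
    {l R : Y → ℕ → ℕ → Prop} {A B : Y → ℕ → Prop}
    (hl : ∀ m n, Measurable fun y => l y m n) (hR : ∀ m n, Measurable fun y => R y m n)
    (hA : ∀ m, Measurable fun y => A y m) (hB : ∀ m, Measurable fun y => B y m)
    {K : Set Y} (hK : MeasurableSet K) (h : ∀ y ∈ K, Scat th (l y) (R y) (A y) (B y)) :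
    ∃ α : Ordinal.{0}, α < Ordinal.omega 1 ∧
      ∀ y ∈ K, ∀ m n, ¬ Zs th (l y) (R y) (A y) (B y) α m n := by
  classical
  by_contra hcon
  push Not at hcon
  have b1 : BorelSpace (ℕ → Bool) := Pi.borelSpace
  have b2 : BorelSpace (ℕ → ℕ → Bool) := Pi.borelSpace
  have b3 : BorelSpace ((ℕ → Bool) × (ℕ → Bool)) := Prod.borelSpace
  have b4 : BorelSpace ((ℕ → ℕ → Bool) × (ℕ → Bool) × (ℕ → Bool)) := Prod.borelSpace
  have b5 : BorelSpace Cf := Prod.borelSpace
  have b6 : BorelSpace (Y × Cf) := Prod.borelSpace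
  have b7 : PolishSpace (Y × Cf) := polish_of
  have hm2 : ∀ m n, Measurable fun Q : Y × Cf => Q.2.1 m n = true := fun m n => by
    have h1 : Measurable fun Q : Y × Cf => Q.2.1 m n := (measurable_pi_apply n).comp
      ((measurable_pi_apply m).comp (measurable_fst.comp measurable_snd))
    exact measurableSet_setOfPred.1 (h1 (measurableSet_singleton true))
  have hm3 : ∀ m n, Measurable fun Q : Y × Cf => Q.2.2.1 m n = true := fun m n => by
    have h1 : Measurable fun Q : Y × Cf => Q.2.2.1 m n := (measurable_pi_apply n).comp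
      ((measurable_pi_apply m).comp (measurable_fst.comp (measurable_snd.comp measurable_snd)))
    exact measurableSet_setOfPred.1 (h1 (measurableSet_singleton true))
  have hm4 : ∀ m, Measurable fun Q : Y × Cf => Q.2.2.2.1 m = true := fun m => by
    have h1 : Measurable fun Q : Y × Cf => Q.2.2.2.1 m := (measurable_pi_apply m).comp
      (measurable_fst.comp (measurable_snd.comp (measurable_snd.comp measurable_snd)))
    exact measurableSet_setOfPred.1 (h1 (measurableSet_singleton true))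
  have hm5 : ∀ m, Measurable fun Q : Y × Cf => Q.2.2.2.2 m = true := fun m => by
    have h1 : Measurable fun Q : Y × Cf => Q.2.2.2.2 m := (measurable_pi_apply m).comp
      (measurable_snd.comp (measurable_snd.comp (measurable_snd.comp measurable_snd)))
    exact measurableSet_setOfPred.1 (h1 (measurableSet_singleton true))
  set W : Set (Y × Cf) := {Q | Q.1 ∈ K ∧ (∀ m n, Q.2.1 m n = true ↔ l Q.1 m n) ∧
    (∀ m n, Q.2.2.1 m n = true ↔ R Q.1 m n) ∧ (∀ m, Q.2.2.2.1 m = true ↔ A Q.1 m) ∧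
    (∀ m, Q.2.2.2.2 m = true ↔ B Q.1 m)} with hW
  have hWm : MeasurableSet W := by
    refine measurableSet_setOfPred.2 ?_
    refine (measurableSet_setOfPred.1 (measurable_fst hK)).and ?_
    refine (Measurable.forall fun m => Measurable.forall fun n =>
      (hm2 m n).iff ((hl m n).comp measurable_fst)).and ?_
    refine (Measurable.forall fun m => Measurable.forall fun n =>
      (hm3 m n).iff ((hR m n).comp measurable_fst)).and ?_
    exact (Measurable.forall fun m => (hm4 m).iff ((hA m).comp measurable_fst)).and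
      (Measurable.forall fun m => (hm5 m).iff ((hB m).comp measurable_fst))
  have hmem : ∀ y ∈ K, (y, ((fun m n => decide (l y m n), fun m n => decide (R y m n),
      fun m => decide (A y m), fun m => decide (B y m)) : Cf)) ∈ W := by
    intro y hy
    refine ⟨hy, ?_, ?_, ?_, ?_⟩ <;> simp
  have hval : ∀ Q ∈ W, cL Q.2 = l Q.1 ∧ cR Q.2 = R Q.1 ∧ cA Q.2 = A Q.1 ∧ cB Q.2 = B Q.1 := by
    rintro Q ⟨-, h1, h2, h3, h4⟩
    refine ⟨?_, ?_, ?_, ?_⟩
    · funext m n; exact propext (h1 m n)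
    · funext m n; exact propext (h2 m n)
    · funext m; exact propext (h3 m)
    · funext m; exact propext (h4 m)
  have han : AnalyticSet W := hWm.analyticSet
  rw [AnalyticSet] at han
  rcases han with he | ⟨g, hg, hr⟩
  · obtain ⟨y, hy, -⟩ := hcon 0 (Ordinal.omega_pos 1)
    have := hmem y hy
    rw [he] at this
    exact absurd this (Set.notMem_empty _)
  · have hgW : ∀ z, g z ∈ W := fun z => by rw [← hr]; exact mem_range_self z
    obtain ⟨z, hz⟩ := tree th (fun z => (g z).2) (continuous_snd.comp hg) (by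
      intro ξ hξ
      obtain ⟨y, hy, m, n, hmn⟩ := hcon ξ hξ
      have h1 := hmem y hy
      rw [← hr] at h1
      obtain ⟨z, hz⟩ := h1
      refine ⟨z, (m, n), ?_⟩
      obtain ⟨e1, e2, e3, e4⟩ := hval _ (hgW z)
      unfold cZ
      simp only [e1, e2, e3, e4]
      rw [hz]
      exact hmn)
    apply hz
    obtain ⟨e1, e2, e3, e4⟩ := hval _ (hgW z)
    simp only [e1, e2, e3, e4]
    exact h _ (hgW z).1

end Pool.Agent.U97.SC
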