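import Pool.Agent.U97.SC.Meas
import Pool.Agent.N481.VT.Pm

set_option autoImplicit false

/-!
Coding of structures whose relations are locally determined by scattered relations of bounded rank.
-/

namespace Pool.Agent.U97.SC

open Set MeasureTheory
open Pool.Agent.H533R2.VO (RS RIso VC Dich)
open Pool.Agent.H533R2.VS
open Pool.Agent.H566P (ar R2 v2 lt ac co mk)
open Pool.Agent.Y560.TG (lt_mk ac_mk co_mk R2_ext riso_iff meas_into cont_into)
open Pool.Agent.Y558.MB (mset_lt mset_ac mset_co IsI isI_act isI_iff)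
open Pool.Agent.Y558.MC (MAr vcu_MAr coan_MAr inv_MAr)
open Pool.Agent.TH425.FF (PCanon PExp)
open Pool.Agent.N481.VT (SLO)
open Pool.Agent.N481.VT.PM (DefB FamU fs fs_surj m_rel)

variable {a : ℕ → ℕ}

/-! ### Numbering -/

/-- a numbering of a countable type -/
noncomputable def enc {X : Type} [Countable X] : X → ℕ := (exists_injective_nat X).choose

theorem enc_inj {X : Type} [Countable X] : Function.Injective (enc : X → ℕ) :=
  (exists_injective_nat X).choose_spec

noncomputable def dc {X : Type} [Countable X] [Nonempty X] : ℕ → X := Function.invFun enc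

theorem dc_enc {X : Type} [Countable X] [Nonempty X] (t : X) : dc (enc t) = t :=
  Function.leftInverse_invFun enc_inj t

/-- indices of layers (`x = false`) and of their exceptional parts (`x = true`) -/
structure EI where
  j : ℕ
  q : ℕ
  r : ℕ
  b : ℕ
  e : Bool
  f : Bool
  c : Bool
  x : Bool

instance : Countable EI := by
  have h : Function.Injective fun t : EI => (t.j, t.q, t.r, t.b, t.e, t.f, t.c, t.x) := by
    rintro ⟨⟩ ⟨⟩ h
    simp only [Prod.mk.injEq] at h
    obtain ⟨rfl, rfl, rfl, rfl, rfl, rfl, rfl, rfl⟩ := h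
    rfl
  exact h.countable

instance : Nonempty EI := ⟨⟨0, 0, 0, 0, false, false, false, false⟩⟩

/-- indices of unary predicates -/
inductive UI where
  | q (r : ℕ)
  | pl (t : EI)
  | pr (t : EI)
  | fl (j q r : ℕ)
  | pat (i J C : ℕ)

instance : Countable UI := by
  have h : Function.Injective fun u : UI => (match u with
    | .q r => Sum.inl r
    | .pl t => Sum.inr (Sum.inl (t, true))
    | .pr t => Sum.inr (Sum.inl (t, false))
    | .fl j q r => Sum.inr (Sum.inr (Sum.inl (j, q, r)))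
    | .pat i J C => Sum.inr (Sum.inr (Sum.inr (i, J, C))) :
      ℕ ⊕ (EI × Bool) ⊕ (ℕ × ℕ × ℕ) ⊕ (ℕ × ℕ × ℕ)) := by
    intro u v h
    cases u <;> cases v <;> simp_all
  exact h.countable

instance : Nonempty UI := ⟨.q 0⟩

/-- parity of the index of a relation which is closed in the direction `d1`, `d2` -/
def par (d1 d2 : Bool) : ℕ := if d1 = d2 then 1 else 0

theorem par_lt (d1 d2 : Bool) : par d1 d2 < 2 := by
  unfold par
  split_ifs <;> omega

/-! ### The coding -/

section defs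

variable (α : Ordinal.{0}) (g : ℕ → Ordinal.{0})

/-- layers and their exceptional parts -/
def EE (l : ℕ → ℕ → Prop) (Q : ℕ → ℕ → Prop) (D : ℕ → ℕ → ℕ → Prop) (t : EI) : ℕ → ℕ → Prop :=
  if t.x = true then Ec false l (D t.j) (Q t.q) (Q t.r) (g t.b) t.e t.f t.c
  else Dc false l (D t.j) (Q t.q) (Q t.r) (g t.b) t.e t.f t.c

/-- the derivative of order `α` is empty -/
def Fl (th : Bool) (l R : ℕ → ℕ → Prop) (A B : ℕ → Prop) : Prop := ∀ m n, ¬ Zs th l R A B α m n

/-- `R` is scattered of rank at most `α` on rectangles which cover all pairs -/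
def Gd (l R : ℕ → ℕ → Prop) (Q : ℕ → ℕ → Prop) : Prop :=
  ∀ m n, ∃ q r, Q q m ∧ Q r n ∧ Fl α false l R (Q q) (Q r)

/-- the pattern `C` for the relations in `J` implies the relation number `i` -/
def Pt (l : ℕ → ℕ → Prop) (Q : ℕ → ℕ → Prop) (D : ℕ → ℕ → ℕ → Prop) (x : RS a) (i : ℕ)
    (J C : Finset ℕ) : Prop :=
  (∀ j, j ∈ J → Gd α l (D j) Q) ∧ ∀ v : Fin (a i) → ℕ,
    (∀ j, j ∈ J → ∀ s t : Fin (a i), D j (v s) (v t) ↔ Nat.pair j (Nat.pair s t) ∈ C) →
      x i v = true

/-- the binary relations of the code -/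
def acr (l : ℕ → ℕ → Prop) (Q : ℕ → ℕ → Prop) (D : ℕ → ℕ → ℕ → Prop) (t : EI × Bool × Bool)
    (s m n : ℕ) : Prop :=
  s = par t.2.1 t.2.2 ∧ (if t.2.2 = true then Hl l t.2.1 t.2.2 (EE g l Q D t.1) m n
    else ¬ Hl l t.2.1 t.2.2 (EE g l Q D t.1) m n)

/-- the unary predicates of the code -/
def cop (l : ℕ → ℕ → Prop) (Q : ℕ → ℕ → Prop) (D : ℕ → ℕ → ℕ → Prop) (x : RS a) (u : UI)
    (m : ℕ) : Prop :=
  match u with
  | .q r => Q r m
  | .pl t => ∃ n, EE g l Q D t m n
  | .pr t => ∃ n, EE g l Q D t n m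
  | .fl j q r => Fl α false l (D j) (Q q) (Q r)
  | .pat i J C => Pt α l Q D x i (fs J) (fs C)

/-- coding -/
noncomputable def cc (l : ℕ → ℕ → Prop) (Q : ℕ → ℕ → Prop) (D : ℕ → ℕ → ℕ → Prop) (x : RS a) : R2 :=
  mk l (fun i m n => acr g l Q D (dc (i / 2)) (i % 2) m n) (fun k m => cop α g l Q D x (dc k) m)

/-- the hulls from the code -/
def hd (z : R2) (t : EI) (d1 d2 : Bool) (m n : ℕ) : Prop :=
  if d2 = true then ac z (2 * enc (t, d1, d2) + par d1 d2) m n
  else ¬ ac z (2 * enc (t, d1, d2) + par d1 d2) m n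

/-- the exceptional parts from the code -/
def ed (z : R2) (t : EI) (m n : ℕ) : Prop :=
  hd z t t.e t.f m n ∧ hd z t (!t.e) (!t.f) m n ∧ co z (enc (UI.pl t)) m ∧ co z (enc (UI.pr t)) n

/-- the binary relations from the code -/
def drl (z : R2) (j m n : ℕ) : Prop :=
  ∃ q r, co z (enc (UI.q q)) m ∧ co z (enc (UI.q r)) n ∧ co z (enc (UI.fl j q r)) m ∧
    ∃ b e f c, hd z ⟨j, q, r, b, e, f, c, false⟩ e f m n ∧
      (∀ b', g b' < g b → ∀ e' f' c', ¬ hd z ⟨j, q, r, b', e', f', c', false⟩ e' f' m n) ∧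
      (c = true ↔ ¬ ed z ⟨j, q, r, b, e, f, c, true⟩ m n)

/-- decoding -/
def dcp (z : R2) (i : ℕ) (v : Fin (a i) → ℕ) : Prop :=
  ∃ J C u, co z (enc (UI.pat i J C)) u ∧
    ∀ j, j ∈ fs J → ∀ s t : Fin (a i), drl g z j (v s) (v t) ↔ Nat.pair j (Nat.pair s t) ∈ fs C

open Classical in
noncomputable def dd (z : R2) : RS a := fun i v => decide (dcp g z i v)

end defs

/-! ### Equivariance -/

section equi

variable {α : Ordinal.{0}} {g : ℕ → Ordinal.{0}} {σ : Equiv.Perm ℕ} {l l' R R' : ℕ → ℕ → Prop}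
  {A A' B B' : ℕ → Prop} {Q Q' : ℕ → ℕ → Prop} {D D' : ℕ → ℕ → ℕ → Prop}

theorem ee_equi (hl : ∀ m n, l' (σ m) (σ n) ↔ l m n) (hQ : ∀ r m, Q' r (σ m) ↔ Q r m)
    (hD : ∀ j m n, D' j (σ m) (σ n) ↔ D j m n) (t : EI) (m n : ℕ) :
    EE g l' Q' D' t (σ m) (σ n) ↔ EE g l Q D t m n := by
  unfold EE
  split_ifs
  · exact ec_equi hl (hD _) (hQ _) (hQ _) _ _ _ _ m n
  · exact dc_equi hl (hD _) (hQ _) (hQ _) _ _ _ _ m n

theorem fl_equi {th : Bool} (hl : ∀ m n, l' (σ m) (σ n) ↔ l m n)
    (hR : ∀ m n, R' (σ m) (σ n) ↔ R m n) (hA : ∀ m, A' (σ m) ↔ A m) (hB : ∀ m, B' (σ m) ↔ B m) :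
    Fl α th l' R' A' B' ↔ Fl α th l R A B := by
  unfold Fl
  rw [σ.surjective.forall₂]
  simp only [zs_equi hl hR hA hB]

theorem gd_equi (hl : ∀ m n, l' (σ m) (σ n) ↔ l m n) (hR : ∀ m n, R' (σ m) (σ n) ↔ R m n)
    (hQ : ∀ r m, Q' r (σ m) ↔ Q r m) : Gd α l' R' Q' ↔ Gd α l R Q := by
  unfold Gd
  rw [σ.surjective.forall₂]
  simp only [hQ, fun q r => fl_equi (α := α) (th := false) hl hR (hQ q) (hQ r)]

theorem pt_equi (hl : ∀ m n, l' (σ m) (σ n) ↔ l m n) (hD : ∀ j m n, D' j (σ m) (σ n) ↔ D j m n)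
    (hQ : ∀ r m, Q' r (σ m) ↔ Q r m) (x : RS a) (i : ℕ) (J C : Finset ℕ) :
    Pt α l' Q' D' (act σ x) i J C ↔ Pt α l Q D x i J C := by
  unfold Pt
  have e : (∀ v : Fin (a i) → ℕ, (∀ j, j ∈ J → ∀ s t : Fin (a i),
      D' j (v s) (v t) ↔ Nat.pair j (Nat.pair s t) ∈ C) → act σ x i v = true) ↔
      ∀ v : Fin (a i) → ℕ, (∀ j, j ∈ J → ∀ s t : Fin (a i),
        D j (v s) (v t) ↔ Nat.pair j (Nat.pair s t) ∈ C) → x i v = true := by
    constructor
    · intro h v hv
      have h1 := h (⇑σ ∘ v) (fun j hj s t => by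
        rw [← hv j hj s t]
        exact hD j _ _)
      unfold act at h1
      have e : (⇑σ.symm ∘ ⇑σ ∘ v) = v := by
        funext j
        simp
      rw [e] at h1
      exact h1
    · intro h v hv
      refine h (⇑σ.symm ∘ v) fun j hj s t => ?_
      rw [← hv j hj s t, ← hD]
      simp
  rw [e]
  simp only [fun j => gd_equi (α := α) hl (hD j) hQ]

theorem acr_equi (hl : ∀ m n, l' (σ m) (σ n) ↔ l m n) (hQ : ∀ r m, Q' r (σ m) ↔ Q r m)
    (hD : ∀ j m n, D' j (σ m) (σ n) ↔ D j m n) (t : EI × Bool × Bool) (s m n : ℕ) :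
    acr g l' Q' D' t s (σ m) (σ n) ↔ acr g l Q D t s m n := by
  unfold acr
  simp only [fun d1 d2 => hl_equi (E := EE g l Q D t.1) (E' := EE g l' Q' D' t.1) hl
    (ee_equi hl hQ hD t.1) d1 d2 m n]

theorem cop_equi (hl : ∀ m n, l' (σ m) (σ n) ↔ l m n) (hQ : ∀ r m, Q' r (σ m) ↔ Q r m)
    (hD : ∀ j m n, D' j (σ m) (σ n) ↔ D j m n) (x : RS a) (u : UI) (m : ℕ) :
    cop α g l' Q' D' (act σ x) u (σ m) ↔ cop α g l Q D x u m := by
  cases u with
  | q r => exact hQ r m
  | pl t =>
    show (∃ n, EE g l' Q' D' t (σ m) n) ↔ ∃ n, EE g l Q D t m n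
    rw [σ.surjective.exists]
    simp only [ee_equi hl hQ hD]
  | pr t =>
    show (∃ n, EE g l' Q' D' t n (σ m)) ↔ ∃ n, EE g l Q D t n m
    rw [σ.surjective.exists]
    simp only [ee_equi hl hQ hD]
  | fl j q r => exact fl_equi hl (hD _) (hQ _) (hQ _)
  | pat i J C => exact pt_equi hl hD hQ x i _ _

theorem i_hd {z z' : R2} (h : IsI σ z z') (t : EI) (d1 d2 : Bool) (m n : ℕ) :
    hd z' t d1 d2 (σ m) (σ n) ↔ hd z t d1 d2 m n := by
  unfold hd
  simp only [h.2.1]

theorem i_ed {z z' : R2} (h : IsI σ z z') (t : EI) (m n : ℕ) :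
    ed z' t (σ m) (σ n) ↔ ed z t m n := by
  unfold ed
  simp only [i_hd h, h.2.2]

theorem i_drl {z z' : R2} (h : IsI σ z z') (j m n : ℕ) :
    drl g z' j (σ m) (σ n) ↔ drl g z j m n := by
  unfold drl
  simp only [i_hd h, i_ed h, h.2.2]

theorem i_dcp {z z' : R2} (h : IsI σ z z') (i : ℕ) (v : Fin (a i) → ℕ) :
    dcp g z' i (⇑σ ∘ v) ↔ dcp g z i v := by
  unfold dcp
  refine exists_congr fun J => exists_congr fun C => ?_
  rw [σ.surjective.exists]
  simp only [h.2.2, Function.comp_apply, i_drl h]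

end equi

/-! ### Measurability -/

section meas

variable {α : Ordinal.{0}} {g : ℕ → Ordinal.{0}} {Y : Type} [MeasurableSpace Y]
  {l R : Y → ℕ → ℕ → Prop} {A B : Y → ℕ → Prop} {Q : Y → ℕ → ℕ → Prop}
  {D : Y → ℕ → ℕ → ℕ → Prop}

theorem m_ee (hg : ∀ n, g n < Ordinal.omega 1) (hl : ∀ m n, Measurable fun y => l y m n)
    (hQ : ∀ r m, Measurable fun y => Q y r m) (hD : ∀ j m n, Measurable fun y => D y j m n)
    (t : EI) (m n : ℕ) : Measurable fun y => EE g (l y) (Q y) (D y) t m n := by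
  unfold EE
  cases h : t.x with
  | true =>
    simp only [if_true]
    exact m_ec hl (hD _) (hQ _) (hQ _) (hg _) _ _ _ m n
  | false =>
    have e1 : ¬ (false = true) := by decide
    simp only [if_neg e1]
    exact m_dc hl (hD _) (hQ _) (hQ _) (hg _) _ _ _ m n

theorem m_fl {th : Bool} (hα : α < Ordinal.omega 1) (hl : ∀ m n, Measurable fun y => l y m n)
    (hR : ∀ m n, Measurable fun y => R y m n) (hA : ∀ m, Measurable fun y => A y m)
    (hB : ∀ m, Measurable fun y => B y m) :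
    Measurable fun y => Fl α th (l y) (R y) (A y) (B y) := by
  unfold Fl
  exact Measurable.forall fun m => Measurable.forall fun n => (m_zs hl hR hA hB α hα m n).not

theorem m_gd (hα : α < Ordinal.omega 1) (hl : ∀ m n, Measurable fun y => l y m n)
    (hR : ∀ m n, Measurable fun y => R y m n) (hQ : ∀ r m, Measurable fun y => Q y r m) :
    Measurable fun y => Gd α (l y) (R y) (Q y) := by
  unfold Gd
  exact Measurable.forall fun m => Measurable.forall fun n => Measurable.exists fun q =>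
    Measurable.exists fun r => (hQ q m).and ((hQ r n).and (m_fl hα hl hR (hQ q) (hQ r)))

theorem m_acr (hg : ∀ n, g n < Ordinal.omega 1) (hl : ∀ m n, Measurable fun y => l y m n)
    (hQ : ∀ r m, Measurable fun y => Q y r m) (hD : ∀ j m n, Measurable fun y => D y j m n)
    (t : EI × Bool × Bool) (s m n : ℕ) :
    Measurable fun y => acr g (l y) (Q y) (D y) t s m n := by
  unfold acr
  refine measurable_const.and ?_
  have h1 := fun d1 d2 => m_hl hl (E := fun y => EE g (l y) (Q y) (D y) t.1)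
    (m_ee hg hl hQ hD t.1) d1 d2 m n
  split_ifs
  · exact h1 _ _
  · exact (h1 _ _).not

theorem m_hd (t : EI) (d1 d2 : Bool) (m n : ℕ) : Measurable fun z : R2 => hd z t d1 d2 m n := by
  unfold hd
  split_ifs
  · exact mset_ac _ _ _
  · exact (mset_ac _ _ _).not

theorem m_ed (t : EI) (m n : ℕ) : Measurable fun z : R2 => ed z t m n := by
  unfold ed
  exact (m_hd _ _ _ _ _).and ((m_hd _ _ _ _ _).and ((mset_co _ _).and (mset_co _ _)))

theorem m_drl (j m n : ℕ) : Measurable fun z : R2 => drl g z j m n := by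
  unfold drl
  exact Measurable.exists fun q => Measurable.exists fun r => (mset_co _ _).and
    ((mset_co _ _).and ((mset_co _ _).and (Measurable.exists fun b => Measurable.exists fun e =>
      Measurable.exists fun f => Measurable.exists fun c => (m_hd _ _ _ _ _).and
        ((Measurable.forall fun b' => measurable_const.imp (Measurable.forall fun e' =>
          Measurable.forall fun f' => Measurable.forall fun c' => (m_hd _ _ _ _ _).not)).and
            (measurable_const.iff (m_ed _ _ _).not)))))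

theorem m_dcp (i : ℕ) (v : Fin (a i) → ℕ) : Measurable fun z : R2 => dcp g z i v := by
  unfold dcp
  exact Measurable.exists fun J => Measurable.exists fun C => Measurable.exists fun u =>
    (mset_co _ _).and (Measurable.forall fun j => measurable_const.imp
      (Measurable.forall fun s => Measurable.forall fun t => (m_drl _ _ _).iff
        measurable_const))

end meas

section canon

variable {α : Ordinal.{0}} {g : ℕ → Ordinal.{0}} {Lo : List ℕ → RS a → ℕ → ℕ → Prop}
  {Q : ℕ → List ℕ → RS a → ℕ → Prop} {D : ℕ → List ℕ → RS a → ℕ → ℕ → Prop}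

theorem m_cc (hα : α < Ordinal.omega 1) (hg : ∀ n, g n < Ordinal.omega 1) (hL : DefB Lo)
    (hQ : FamU Q) (hD : ∀ j, DefB (D j)) (p : List ℕ) :
    Measurable fun x : RS a => cc α g (Lo p x) (fun r => Q r p x) (fun j => D j p x) x := by
  have h1 : ∀ m n, Measurable fun x => Lo p x m n := fun m n =>
    measurableSet_setOfPred.1 (hL.meas p m n)
  have h2 : ∀ r m, Measurable fun x => Q r p x m := fun r m =>
    measurableSet_setOfPred.1 (hQ.meas r p m)
  have h3 : ∀ j m n, Measurable fun x => D j p x m n := fun j m n =>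
    measurableSet_setOfPred.1 ((hD j).meas p m n)
  refine meas_into ?_ ?_ ?_
  · intro m n
    simp only [cc, lt_mk]
    exact measurableSet_setOfPred.2 (h1 m n)
  · intro j m n
    simp only [cc, ac_mk]
    exact measurableSet_setOfPred.2 (m_acr (Q := fun x r => Q r p x) (D := fun x j => D j p x)
      hg h1 h2 h3 _ _ m n)
  · intro k m
    simp only [cc, co_mk]
    refine measurableSet_setOfPred.2 ?_
    generalize (dc k : UI) = u
    cases u with
    | q r => exact h2 r m
    | pl t =>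
      exact Measurable.exists fun n => m_ee (Q := fun x r => Q r p x) (D := fun x j => D j p x)
        hg h1 h2 h3 t m n
    | pr t =>
      exact Measurable.exists fun n => m_ee (Q := fun x r => Q r p x) (D := fun x j => D j p x)
        hg h1 h2 h3 t n m
    | fl j q r => exact m_fl hα h1 (h3 j) (h2 q) (h2 r)
    | pat i J C =>
      exact (Measurable.forall fun j => measurable_const.imp
        (m_gd (Q := fun x r => Q r p x) hα h1 (h3 j) h2)).and
        (Measurable.forall fun v => (Measurable.forall fun j => measurable_const.imp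
          (Measurable.forall fun s => Measurable.forall fun t => (h3 j _ _).iff
            measurable_const)).imp (m_rel i v))

theorem i_cc (hL : DefB Lo) (hQ : FamU Q) (hD : ∀ j, DefB (D j)) (p : List ℕ)
    (σ : Equiv.Perm ℕ) (x : RS a) :
    IsI σ (cc α g (Lo p x) (fun r => Q r p x) (fun j => D j p x) x)
      (cc α g (Lo (p.map σ) (act σ x)) (fun r => Q r (p.map σ) (act σ x))
        (fun j => D j (p.map σ) (act σ x)) (act σ x)) := by
  have h1 : ∀ m n, Lo (p.map σ) (act σ x) (σ m) (σ n) ↔ Lo p x m n := hL.equi p x σ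
  have h2 : ∀ r m, Q r (p.map σ) (act σ x) (σ m) ↔ Q r p x m := fun r => hQ.equi r p x σ
  have h3 : ∀ j m n, D j (p.map σ) (act σ x) (σ m) (σ n) ↔ D j p x m n := fun j =>
    (hD j).equi p x σ
  refine ⟨fun m n => ?_, fun j m n => ?_, fun j m => ?_⟩
  · simp only [cc, lt_mk, h1]
  · simp only [cc, ac_mk]
    exact acr_equi h1 h2 h3 _ _ m n
  · simp only [cc, co_mk]
    exact cop_equi h1 h2 h3 x _ m

theorem pcanon (hα : α < Ordinal.omega 1) (hg : ∀ n, g n < Ordinal.omega 1) (hL : DefB Lo)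
    (hQ : FamU Q) (hD : ∀ j, DefB (D j)) :
    PCanon (fun p (x : RS a) => cc α g (Lo p x) (fun r => Q r p x) (fun j => D j p x) x)
      (fun _ => (dd g : R2 → RS a)) := by
  classical
  refine ⟨fun p => m_cc hα hg hL hQ hD p, fun p => ?_, fun σ p x => ?_, fun σ p z => ?_⟩
  · refine measurable_pi_lambda _ fun i => measurable_pi_lambda _ fun v => ?_
    refine measurable_to_bool ?_
    have e : (fun z : R2 => dd (a := a) g z i v) ⁻¹' {true} = {z | dcp g z i v} := by
      ext z
      exact decide_eq_true_iff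
    rw [e]
    exact measurableSet_setOfPred.2 (m_dcp i v)
  · exact isI_iff.1 (i_cc hL hQ hD p σ x)
  · funext i v
    show decide (dcp g (act σ z) i v) = decide (dcp g z i (⇑σ.symm ∘ v))
    refine decide_eq_decide.2 ?_
    rw [← i_dcp (isI_act σ z)]
    have e : ⇑σ ∘ ⇑σ.symm ∘ v = v := by
      funext j
      simp
    rw [e]

end canon

/-! ### Decoding inverts coding -/

section inv

variable {α : Ordinal.{0}} {g : ℕ → Ordinal.{0}} {l : ℕ → ℕ → Prop} {Q : ℕ → ℕ → Prop}
  {D : ℕ → ℕ → ℕ → Prop} {x : RS a}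

theorem hl_down (hl : SLO l) {E : ℕ → ℕ → Prop} {m n m' : ℕ} (h : Hl l false true E m n)
    (hm : l m' m) : Hl l false true E m' n := hl_left hl h (by simpa [od] using hm)

theorem mar_cc (hl : SLO l) : MAr (cc α g l Q D x) := by
  refine ⟨fun m => ?_, fun m n k => ?_, fun m n => ?_, fun i m m' n hi => ?_,
    fun i m m' n hi => ?_, fun i m n n' => ?_⟩
  · simp only [cc, lt_mk]
    exact hl.irr m
  · simp only [cc, lt_mk]
    exact hl.tr m n k
  · simp only [cc, lt_mk]
    exact hl.tot m n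
  · simp only [cc, lt_mk, ac_mk]
    generalize (dc (i / 2) : EI × Bool × Bool) = t
    obtain ⟨t, d1, d2⟩ := t
    rintro h1 ⟨h2, h3⟩
    refine ⟨h2, ?_⟩
    rw [hi] at h2
    simp only at h3 ⊢
    cases d1 <;> cases d2 <;> simp only [par] at h2 h3 ⊢
    · exact absurd h2 (by simp)
    · exact hl_left hl h3 (by simpa [od] using h1)
    · have e1 : ¬ (false = true) := by decide
      rw [if_neg e1] at h3 ⊢
      exact fun h4 => h3 (hl_left hl h4 (by simpa [od] using h1))
    · exact absurd h2 (by simp)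
  · simp only [cc, lt_mk, ac_mk]
    generalize (dc (i / 2) : EI × Bool × Bool) = t
    obtain ⟨t, d1, d2⟩ := t
    rintro h1 ⟨h2, h3⟩
    refine ⟨h2, ?_⟩
    have hi' : i % 2 = 1 := by omega
    rw [hi'] at h2
    simp only at h3 ⊢
    cases d1 <;> cases d2 <;> simp only [par] at h2 h3 ⊢
    · have e1 : ¬ (false = true) := by decide
      rw [if_neg e1] at h3 ⊢
      exact fun h4 => h3 (hl_left hl h4 (by simpa [od] using h1))
    · exact absurd h2 (by simp)
    · exact absurd h2 (by simp)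
    · exact hl_left hl h3 (by simpa [od] using h1)
  · simp only [cc, lt_mk, ac_mk]
    generalize (dc (i / 2) : EI × Bool × Bool) = t
    obtain ⟨t, d1, d2⟩ := t
    rintro h1 ⟨h2, h3⟩
    refine ⟨h2, ?_⟩
    simp only at h3 ⊢
    cases d2 with
    | true =>
      simp only [if_true] at h3 ⊢
      exact hl_right hl h3 (by simpa [od] using h1)
    | false =>
      have e1 : ¬ (false = true) := by decide
      rw [if_neg e1] at h3 ⊢
      exact fun h4 => h3 (hl_right hl h4 (by simpa [od] using h1))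

theorem hd_cc (t : EI) (d1 d2 : Bool) (m n : ℕ) :
    hd (cc α g l Q D x) t d1 d2 m n ↔ Hl l d1 d2 (EE g l Q D t) m n := by
  have h1 : ac (cc α g l Q D x) (2 * enc (t, d1, d2) + par d1 d2) m n ↔
      (if d2 = true then Hl l d1 d2 (EE g l Q D t) m n
        else ¬ Hl l d1 d2 (EE g l Q D t) m n) := by
    have := par_lt d1 d2
    simp only [cc, ac_mk]
    rw [show (2 * enc (t, d1, d2) + par d1 d2) / 2 = enc (t, d1, d2) by omega,
      show (2 * enc (t, d1, d2) + par d1 d2) % 2 = par d1 d2 by omega, dc_enc]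
    unfold acr
    simp
  unfold hd
  rw [h1]
  split_ifs
  · exact Iff.rfl
  · exact not_not

theorem co_cc (u : UI) (m : ℕ) : co (cc α g l Q D x) (enc u) m ↔ cop α g l Q D x u m := by
  simp only [cc, co_mk]
  rw [dc_enc]

theorem ed_cc (hl : SLO l) (t : EI) (ht : t.x = true) (m n : ℕ) :
    ed (cc α g l Q D x) t m n ↔ EE g l Q D t m n := by
  unfold ed
  simp only [hd_cc, co_cc]
  have e1 : EE g l Q D t = Ec false l (D t.j) (Q t.q) (Q t.r) (g t.b) t.e t.f t.c := by
    unfold EE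
    rw [if_pos ht]
  show _ ∧ _ ∧ (∃ n, EE g l Q D t m n) ∧ (∃ m, EE g l Q D t m n) ↔ _
  rw [e1]
  exact (ec_iff hl).symm

theorem drl_cc (hl : SLO l) (hg1 : ∀ n, g n < α) (hg2 : ∀ o < α, ∃ n, g n = o) {j : ℕ}
    (h : Gd α l (D j) Q) (m n : ℕ) : drl g (cc α g l Q D x) j m n ↔ D j m n := by
  have key : ∀ q r, Q q m → Q r n → Fl α false l (D j) (Q q) (Q r) →
      ((∃ b e f c, hd (cc α g l Q D x) ⟨j, q, r, b, e, f, c, false⟩ e f m n ∧
      (∀ b', g b' < g b → ∀ e' f' c',
        ¬ hd (cc α g l Q D x) ⟨j, q, r, b', e', f', c', false⟩ e' f' m n) ∧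
      (c = true ↔ ¬ ed (cc α g l Q D x) ⟨j, q, r, b, e, f, c, true⟩ m n)) ↔ D j m n) := by
    intro q r h1 h2 h3
    rw [dec_iff hl h1 h2 (h3 m n)]
    have k1 : ∀ b e f c, ed (cc α g l Q D x) ⟨j, q, r, b, e, f, c, true⟩ m n ↔
        Ec false l (D j) (Q q) (Q r) (g b) e f c m n := fun b e f c => by
      rw [ed_cc hl ⟨j, q, r, b, e, f, c, true⟩ rfl m n]
      simp only [EE, if_true]
    have k2 : ∀ b e f c, hd (cc α g l Q D x) ⟨j, q, r, b, e, f, c, false⟩ e f m n ↔
        Hl l e f (Dc false l (D j) (Q q) (Q r) (g b) e f c) m n := fun b e f c => by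
      rw [hd_cc]
      simp only [EE, Bool.false_eq_true, if_false]
    simp only [k1, k2]
    constructor
    · rintro ⟨b, e, f, c, h4, h5, h6⟩
      refine ⟨g b, hg1 b, e, f, c, h4, fun b' hb' => ?_, h6⟩
      obtain ⟨b'', rfl⟩ := hg2 b' (hb'.trans (hg1 b))
      exact h5 b'' hb'
    · rintro ⟨o, ho, e, f, c, h4, h5, h6⟩
      obtain ⟨b, rfl⟩ := hg2 o ho
      exact ⟨b, e, f, c, h4, fun b' hb' => h5 _ hb', h6⟩
  unfold drl
  simp only [co_cc]
  constructor
  · rintro ⟨q, r, h1, h2, h3, h4⟩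
    exact (key q r h1 h2 h3).1 h4
  · intro h4
    obtain ⟨q, r, h1, h2, h3⟩ := h m n
    exact ⟨q, r, h1, h2, h3, (key q r h1 h2 h3).2 h4⟩

theorem dd_cc (hl : SLO l) (hg1 : ∀ n, g n < α) (hg2 : ∀ o < α, ∃ n, g n = o)
    (h : ∀ i v, x i v = true → ∃ J : Finset ℕ, (∀ j ∈ J, Gd α l (D j) Q) ∧
      ∀ w : Fin (a i) → ℕ, (∀ j ∈ J, ∀ s t, D j (v s) (v t) ↔ D j (w s) (w t)) → x i w = true) :
    dd g (cc α g l Q D x) = x := by
  classical
  funext i v
  show decide (dcp g (cc α g l Q D x) i v) = x i v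
  have key : dcp g (cc α g l Q D x) i v ↔ x i v = true := by
    unfold dcp
    constructor
    · rintro ⟨J, C, u, h1, h2⟩
      rw [co_cc] at h1
      refine h1.2 v fun j hj s t => ?_
      rw [← h2 j hj s t, drl_cc hl hg1 hg2 (h1.1 j hj)]
    · intro hv
      obtain ⟨J, h1, h2⟩ := h i v hv
      obtain ⟨J', hJ'⟩ := fs_surj J
      obtain ⟨C', hC'⟩ := fs_surj ((J ×ˢ (Finset.univ : Finset (Fin (a i) × Fin (a i)))).filter
        (fun w => D w.1 (v w.2.1) (v w.2.2)) |>.image fun w => Nat.pair w.1 (Nat.pair w.2.1 w.2.2))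
      have hC : ∀ j ∈ J, ∀ s t : Fin (a i),
          (D j (v s) (v t) ↔ Nat.pair j (Nat.pair s t) ∈ fs C') := by
        intro j hj s t
        rw [hC', Finset.mem_image]
        constructor
        · intro h3
          exact ⟨(j, (s, t)), Finset.mem_filter.2 ⟨Finset.mem_product.2 ⟨hj, Finset.mem_univ _⟩,
            h3⟩, rfl⟩
        · rintro ⟨⟨j', s', t'⟩, h3, h4⟩
          rw [Finset.mem_filter] at h3
          have h5 := Nat.pair_eq_pair.1 h4
          have h6 := Nat.pair_eq_pair.1 h5.2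
          have e1 : j' = j := h5.1
          have e2 : s' = s := Fin.ext h6.1
          have e3 : t' = t := Fin.ext h6.2
          subst e1 e2 e3
          exact h3.2
      refine ⟨J', C', 0, ?_, fun j hj s t => ?_⟩
      · rw [co_cc]
        show Pt α l Q D x i (fs J') (fs C')
        rw [hJ']
        refine ⟨h1, fun w hw => h2 w (fun j hj s t => ?_)⟩
        rw [hw j hj s t]
        exact hC j hj s t
      · rw [hJ'] at hj
        rw [drl_cc hl hg1 hg2 (h1 j hj)]
        exact hC j hj s t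
  rw [Bool.eq_iff_iff, decide_eq_true_iff]
  exact key

end inv

end Pool.Agent.U97.SC
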