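import Pool.Agent.U97.SC.Thin
import Pool.Agent.N481.VT.PmFO

set_option autoImplicit false

/-!
First-order theories with scattered relations.
-/

namespace Pool.Agent.U97.SC

open Set MeasureTheory FirstOrder FirstOrder.Language
open Pool.Agent.H533R2.VO (RS RIso VC Dich)
open Pool.Agent.H533R2.VS
open Pool.Agent.N481.VT (SLO)
open Pool.Agent.N481.VT.PM (DefB FamU)
open Pool.Agent.N481.VT.FO (ar evr dec dec_enc dec_iso isoOf meas_realize meas_rel act_rel FD
  fam_FD fd_key FU fam_FU fu_key countable_formula dichotomy_gen)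

variable {L : FirstOrder.Language.{0, 0}}

/-- formulas with parameters and arbitrarily many free variables -/
abbrev FF (L : FirstOrder.Language.{0, 0}) : Type := Σ m : ℕ, Σ k : ℕ, L.Formula (Fin k ⊕ Fin m)

/-- the relation defined by such a formula, with parameters from a list -/
def RN (S : L.Structure ℕ) (p : List ℕ) (q : FF L) (v : Fin q.1 → ℕ) : Prop :=
  ∃ h : p.length = q.2.1, @Formula.Realize L ℕ S _ q.2.2
    (Sum.elim (fun i => p.get (Fin.cast h.symm i)) v)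

theorem rn_key (S : L.Structure ℕ) {m k : ℕ} (ψ : L.Formula (Fin k ⊕ Fin m)) (p : Fin k → ℕ)
    (v : Fin m → ℕ) : RN S (List.ofFn p) ⟨m, k, ψ⟩ v ↔
      @Formula.Realize L ℕ S _ ψ (Sum.elim p v) := by
  have key : ∀ h : (List.ofFn p).length = k,
      (Sum.elim (fun i => (List.ofFn p).get (Fin.cast h.symm i)) v : Fin k ⊕ Fin m → ℕ) =
        Sum.elim p v := by
    intro h
    funext i
    rcases i with i | i
    · simp
    · rfl
  unfold RN
  constructor
  · rintro ⟨h, h3⟩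
    simp only at h3
    rw [key h] at h3
    exact h3
  · intro h3
    refine ⟨by simp, ?_⟩
    simp only
    rw [key (by simp)]
    exact h3

variable (e : ℕ → Option (Σ n, L.Relations n)) (he : Function.Surjective e)

theorem def_RN [L.IsRelational] (q : FF L) :
    DefN fun p (x : RS (fun i => ar (e i))) (v : Fin q.1 → ℕ) => RN (dec e he x) p q v := by
  refine ⟨fun p v => ?_, fun p x σ v => ?_⟩
  · by_cases h : p.length = q.2.1
    · have e1 : {x : RS (fun i => ar (e i)) | RN (dec e he x) p q v} =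
          {x | @Formula.Realize L ℕ (dec e he x) _ q.2.2
            (Sum.elim (fun i => p.get (Fin.cast h.symm i)) v)} := by
        ext x
        exact ⟨fun ⟨_, h1⟩ => h1, fun h1 => ⟨h, h1⟩⟩
      rw [e1]
      exact meas_realize (fun n R v => meas_rel e he R v) _ _ _
    · have e1 : {x : RS (fun i => ar (e i)) | RN (dec e he x) p q v} = ∅ := by
        ext x
        exact ⟨fun ⟨h1, _⟩ => absurd h1 h, fun h1 => absurd h1 (notMem_empty _)⟩
      rw [e1]
      exact MeasurableSet.empty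
  · have h1 := dec_iso e he (fun i v => act_rel σ x i v)
    have h2 : ∀ c : Fin q.2.1 ⊕ Fin q.1 → ℕ,
        @Formula.Realize L ℕ (dec e he x) _ q.2.2 c ↔
          @Formula.Realize L ℕ (dec e he (act σ x)) _ q.2.2 (fun i => σ (c i)) := fun c =>
      (@StrongHomClass.realize_formula L ℕ ℕ (dec e he x) (dec e he (act σ x)) _ _ _ _
        (isoOf σ h1) q.2.2 c).symm
    unfold RN
    constructor
    · rintro ⟨h, h3⟩
      have h' : p.length = q.2.1 := by rw [← h, List.length_map]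
      refine ⟨h', (h2 _).2 ?_⟩
      convert h3 using 2
      rename_i i
      rcases i with i | i
      · simp
      · rfl
    · rintro ⟨h', h3⟩
      have h : (p.map σ).length = q.2.1 := by rw [← h', List.length_map]
      refine ⟨h, ?_⟩
      have h4 := (h2 _).1 h3
      convert h4 using 2
      rename_i i
      rcases i with i | i
      · simp
      · rfl

/-- **The first-order form.** -/
theorem sc_dichotomy [L.IsRelational] (hc : Countable (Σ n, L.Relations n)) (T : L.Theory)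
    (hT : ∀ S : L.Structure ℕ, @Theory.Model L ℕ S T →
      ∃ (k : ℕ) (p : Fin k → ℕ) (φ : L.Formula (Fin k ⊕ Fin 2))
        (D : L.Formula (Fin k ⊕ Fin 2) → ℕ → ℕ → Prop)
        (Q : L.Formula (Fin k ⊕ Fin 1) → ℕ → Prop),
        (∀ ψ u v, D ψ u v ↔ @Formula.Realize L ℕ S _ ψ (Sum.elim p ![u, v])) ∧
        (∀ ψ u, Q ψ u ↔ @Formula.Realize L ℕ S _ ψ (Sum.elim p ![u])) ∧ SLO (D φ) ∧
        ∀ (n : ℕ) (R : L.Relations n) (v : Fin n → ℕ), @Structure.RelMap L ℕ S n R v →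
          ∃ (J : Finset (L.Formula (Fin k ⊕ Fin 2))) (J' : Finset (FF L)),
          (∀ ψ ∈ J, ∀ u v, ∃ α β, Q α u ∧ Q β v ∧ Scat false (D φ) (D ψ) (Q α) (Q β)) ∧
          (∀ q ∈ J', Thin (D φ) (RN S (List.ofFn p) q)) ∧
          ∀ w : Fin n → ℕ, (∀ ψ ∈ J, ∀ s t, D ψ (v s) (v t) ↔ D ψ (w s) (w t)) →
            (∀ q ∈ J', ∀ c : Fin q.1 → Fin n, RN S (List.ofFn p) q (v ∘ c) →
              RN S (List.ofFn p) q (w ∘ c)) → @Structure.RelMap L ℕ S n R w) :
    (∃ g : ℕ → L.Structure ℕ, ∀ S : L.Structure ℕ, @Theory.Model L ℕ S T →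
        ∃ n : ℕ, Nonempty (@FirstOrder.Language.Equiv L ℕ ℕ S (g n))) ∨
    (∃ f : (ℕ → Bool) → L.Structure ℕ, (∀ x : ℕ → Bool, @Theory.Model L ℕ (f x) T) ∧
      (∀ x y : ℕ → Bool, Nonempty (@FirstOrder.Language.Equiv L ℕ ℕ (f x) (f y)) → x = y) ∧
      (∀ (n : ℕ) (R : L.Relations n) (a : Fin n → ℕ),
        IsClopen {x : ℕ → Bool | @Structure.RelMap L ℕ (f x) n R a})) := by
  classical
  have hne : Nonempty (Option (Σ n, L.Relations n)) := ⟨none⟩
  obtain ⟨e, he⟩ := exists_surjective_nat (Option (Σ n, L.Relations n))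
  have hF2c := countable_formula hc 2
  have hF1c := countable_formula hc 1
  have hFc : ∀ m, Countable (Σ n, L.Formula (Fin n ⊕ Fin m)) := countable_formula hc
  have hF2n : Nonempty (Σ n, L.Formula (Fin n ⊕ Fin 2)) := ⟨⟨0, ⊥⟩⟩
  have hF1n : Nonempty (Σ n, L.Formula (Fin n ⊕ Fin 1)) := ⟨⟨0, ⊥⟩⟩
  have hFN : Nonempty (FF L) := ⟨⟨0, 0, ⊥⟩⟩
  have hFFc : Countable (FF L) := instCountableSigma
  obtain ⟨F2, hF2⟩ := exists_surjective_nat (Σ n, L.Formula (Fin n ⊕ Fin 2))
  obtain ⟨F1, hF1⟩ := exists_surjective_nat (Σ n, L.Formula (Fin n ⊕ Fin 1))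
  obtain ⟨G, hG⟩ := exists_surjective_nat (FF L)
  have hfam := fam_FD e he F2
  have hD : ∀ k, DefB (FD e he F2 k) := fun k => ⟨hfam.meas k, hfam.equi k⟩
  refine dichotomy_gen hc T e he (CS (FD e he F2) (FU e he F1)
    (fun j p x v => RN (dec e he x) p (G j) v))
    (vc_CS hD (fam_FU e he F1) fun j => def_RN e he (G j)) fun S hS => ?_
  obtain ⟨k, p, φ, D, Q, hD1, hQ1, hlo, hR⟩ := hT S hS
  -- indices of formulas
  choose g2 hg2 using fun ψ : L.Formula (Fin k ⊕ Fin 2) => hF2 ⟨k, ψ⟩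
  choose g1 hg1 using fun ψ : L.Formula (Fin k ⊕ Fin 1) => hF1 ⟨k, ψ⟩
  choose gn hgn using hG
  have kD : ∀ ψ, FD e he F2 (g2 ψ) (List.ofFn p) (Pool.Agent.N481.VT.FO.enc e S) = D ψ := by
    intro ψ
    funext u v
    apply propext
    rw [hD1]
    unfold FD
    rw [dec_enc]
    exact fd_key S k ψ p u v _ (hg2 ψ)
  have kQ : ∀ ψ, FU e he F1 (g1 ψ) (List.ofFn p) (Pool.Agent.N481.VT.FO.enc e S) = Q ψ := by
    intro ψ
    funext u
    apply propext
    rw [hQ1]
    unfold FU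
    rw [dec_enc]
    exact fu_key S k ψ p u _ (hg1 ψ)
  refine ⟨g2 φ, List.ofFn p, by rw [kD]; exact hlo, fun i => ?_⟩
  -- the relation number i
  have key : ∀ o : Option (Σ n, L.Relations n), ∀ v : Fin (ar o) → ℕ, evr S o v = true →
      ∃ (J : Finset (L.Formula (Fin k ⊕ Fin 2))) (J' : Finset (FF L)),
      (∀ ψ ∈ J, ∀ u v, ∃ α β, Q α u ∧ Q β v ∧ Scat false (D φ) (D ψ) (Q α) (Q β)) ∧
      (∀ q ∈ J', Thin (D φ) (RN S (List.ofFn p) q)) ∧
      ∀ w : Fin (ar o) → ℕ, (∀ ψ ∈ J, ∀ s t, D ψ (v s) (v t) ↔ D ψ (w s) (w t)) →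
        (∀ q ∈ J', ∀ c : Fin q.1 → Fin (ar o), RN S (List.ofFn p) q (v ∘ c) →
              RN S (List.ofFn p) q (w ∘ c)) → evr S o w = true := by
    intro o v hv
    cases o with
    | none => exact absurd hv (by simp [evr])
    | some j =>
      obtain ⟨J, J', h1, h2, h3⟩ := hR j.1 j.2 v (of_decide_eq_true hv)
      exact ⟨J, J', h1, h2, fun w h4 h5 => decide_eq_true (h3 w h4 h5)⟩
  intro v hv
  obtain ⟨J, J', h1, h2, h3⟩ := key (e i) v hv
  have e1 : ∀ q, G (gn q) = q := hgn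
  refine ⟨J.image g2, J'.image gn, fun ⟨j, hj⟩ m n => ?_, fun ⟨j, hj⟩ => ?_, fun w hvw hvw2 => ?_⟩
  · obtain ⟨ψ, hψ, rfl⟩ := Finset.mem_image.1 hj
    obtain ⟨α, β, h3, h4, h5⟩ := h1 ψ hψ m n
    refine ⟨g1 α, g1 β, ?_, ?_, ?_⟩
    · show FU e he F1 (g1 α) (List.ofFn p) (Pool.Agent.N481.VT.FO.enc e S) m
      rw [kQ]; exact h3
    · show FU e he F1 (g1 β) (List.ofFn p) (Pool.Agent.N481.VT.FO.enc e S) n
      rw [kQ]; exact h4
    · show Scat false (FD e he F2 (g2 φ) (List.ofFn p) (Pool.Agent.N481.VT.FO.enc e S))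
        (FD e he F2 (g2 ψ) (List.ofFn p) (Pool.Agent.N481.VT.FO.enc e S))
        (FU e he F1 (g1 α) (List.ofFn p) (Pool.Agent.N481.VT.FO.enc e S))
        (FU e he F1 (g1 β) (List.ofFn p) (Pool.Agent.N481.VT.FO.enc e S))
      rw [kQ, kQ, kD, kD]; exact h5
  · obtain ⟨q, hq, rfl⟩ := Finset.mem_image.1 hj
    show Thin (FD e he F2 (g2 φ) (List.ofFn p) (Pool.Agent.N481.VT.FO.enc e S))
      (RN (dec e he (Pool.Agent.N481.VT.FO.enc e S)) (List.ofFn p) (G (gn q)))
    rw [kD, dec_enc, e1]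
    exact h2 q hq
  · refine h3 w (fun ψ hψ s t => ?_) fun q hq => ?_
    · have h4 := hvw (g2 ψ) (Finset.mem_image_of_mem g2 hψ) s t
      simp only [kD] at h4
      exact h4
    · have h4 := hvw2 (gn q) (Finset.mem_image_of_mem gn hq)
      simp only [dec_enc] at h4
      rw [e1] at h4
      exact h4

end Pool.Agent.U97.SC
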