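import Pool.Agent.U97.SC.Bnd

set_option autoImplicit false

/-!
Measurability and equivariance of the derivatives and hulls.
-/

namespace Pool.Agent.U97.SC

open Set MeasureTheory

/-! ### Equivariance -/

section equi

variable {th : Bool} {σ : Equiv.Perm ℕ} {l l' R R' E E' : ℕ → ℕ → Prop} {A A' B B' : ℕ → Prop}

theorem od_equi (hl : ∀ m n, l' (σ m) (σ n) ↔ l m n) (e : Bool) (m n : ℕ) :
    od e l' (σ m) (σ n) ↔ od e l m n := by
  unfold od
  split_ifs <;> exact hl _ _

theorem zs_equi (hl : ∀ m n, l' (σ m) (σ n) ↔ l m n) (hR : ∀ m n, R' (σ m) (σ n) ↔ R m n)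
    (hA : ∀ m, A' (σ m) ↔ A m) (hB : ∀ m, B' (σ m) ↔ B m) (o : Ordinal.{0}) :
    ∀ m n, Zs th l' R' A' B' o (σ m) (σ n) ↔ Zs th l R A B o m n := by
  induction o using WellFoundedLT.induction with
  | _ o ih =>
    intro m n
    rw [zs_iff, zs_iff, hA, hB]
    refine and_congr Iff.rfl (and_congr Iff.rfl ?_)
    refine forall_congr' fun o' => forall_congr' fun ho => forall_congr' fun e =>
      forall_congr' fun f => forall_congr' fun c => forall_congr' fun hc => ?_
    rw [σ.surjective.exists₂]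
    simp only [ih o' ho, od_equi hl, hR]

theorem dc_equi (hl : ∀ m n, l' (σ m) (σ n) ↔ l m n) (hR : ∀ m n, R' (σ m) (σ n) ↔ R m n)
    (hA : ∀ m, A' (σ m) ↔ A m) (hB : ∀ m, B' (σ m) ↔ B m) (o : Ordinal.{0}) (e f c : Bool)
    (m n : ℕ) : Dc th l' R' A' B' o e f c (σ m) (σ n) ↔ Dc th l R A B o e f c m n := by
  unfold Dc
  rw [σ.surjective.forall₂]
  simp only [zs_equi hl hR hA hB, od_equi hl, hR]

theorem ec_equi (hl : ∀ m n, l' (σ m) (σ n) ↔ l m n) (hR : ∀ m n, R' (σ m) (σ n) ↔ R m n)
    (hA : ∀ m, A' (σ m) ↔ A m) (hB : ∀ m, B' (σ m) ↔ B m) (o : Ordinal.{0}) (e f c : Bool)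
    (m n : ℕ) : Ec th l' R' A' B' o e f c (σ m) (σ n) ↔ Ec th l R A B o e f c m n := by
  unfold Ec
  rw [dc_equi hl hR hA hB, hR]

theorem hl_equi (hl : ∀ m n, l' (σ m) (σ n) ↔ l m n) (hE : ∀ m n, E' (σ m) (σ n) ↔ E m n)
    (e f : Bool) (m n : ℕ) : Hl l' e f E' (σ m) (σ n) ↔ Hl l e f E m n := by
  unfold Hl
  rw [σ.surjective.exists₂]
  simp only [hE, od_equi hl, σ.injective.eq_iff]

theorem scat_equi (hl : ∀ m n, l' (σ m) (σ n) ↔ l m n) (hR : ∀ m n, R' (σ m) (σ n) ↔ R m n)
    (hA : ∀ m, A' (σ m) ↔ A m) (hB : ∀ m, B' (σ m) ↔ B m) :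
    Scat th l R A B → Scat th l' R' A' B' := by
  intro h Z hZ ⟨m0, n0, h0⟩
  obtain ⟨m, n, h1, e, f, c, hc, h2⟩ := h (fun m n => Z (σ m) (σ n))
    (fun m n h => by
      have := hZ _ _ h
      rwa [hA, hB] at this)
    ⟨σ.symm m0, σ.symm n0, by simpa using h0⟩
  refine ⟨σ m, σ n, h1, e, f, c, hc, fun m' n' h3 h4 h5 => ?_⟩
  have h6 := h2 (σ.symm m') (σ.symm n') (by simpa using h3) (by
    rw [← od_equi hl]
    simpa using h4) (by
    rw [← od_equi hl]
    simpa using h5)
  rw [← h6, ← hR]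
  simp

end equi

/-! ### Measurability -/

section meas

variable {th : Bool} {Y : Type} [MeasurableSpace Y] {l R E : Y → ℕ → ℕ → Prop} {A B : Y → ℕ → Prop}

theorem m_od (hl : ∀ m n, Measurable fun y => l y m n) (e : Bool) (m n : ℕ) :
    Measurable fun y => od e (l y) m n := by
  unfold od
  cases e with
  | true => simpa using hl m n
  | false => simpa using hl n m

theorem m_zs (hl : ∀ m n, Measurable fun y => l y m n) (hR : ∀ m n, Measurable fun y => R y m n)
    (hA : ∀ m, Measurable fun y => A y m) (hB : ∀ m, Measurable fun y => B y m)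
    (o : Ordinal.{0}) (ho : o < Ordinal.omega 1) :
    ∀ m n, Measurable fun y => Zs th (l y) (R y) (A y) (B y) o m n := by
  induction o using WellFoundedLT.induction with
  | _ o ih =>
    intro m n
    have hc : Countable (Set.Iio o) := Pool.Agent.H899R2.VP.Dst.countable_Iio ho
    have e1 : (fun y => Zs th (l y) (R y) (A y) (B y) o m n) = fun y => A y m ∧ B y n ∧
        ∀ o' : Set.Iio o, ∀ e f c : Bool, (c = true → th = false) →
          ∃ m' n', Zs th (l y) (R y) (A y) (B y) o'.1 m' n' ∧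
          od e (l y) m m' ∧ od f (l y) n n' ∧ ¬ (R y m' n' ↔ c = true) := by
      funext y
      rw [zs_iff]
      apply propext
      refine and_congr Iff.rfl (and_congr Iff.rfl ?_)
      exact ⟨fun h o' => h o'.1 o'.2, fun h o' ho => h ⟨o', ho⟩⟩
    rw [e1]
    exact (hA m).and ((hB n).and (Measurable.forall fun o' => Measurable.forall fun e =>
      Measurable.forall fun f => Measurable.forall fun c => measurable_const.imp <|
        Measurable.exists fun m' =>
        Measurable.exists fun n' => (ih o'.1 o'.2 (lt_trans o'.2 ho) m' n').and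
          ((m_od hl _ _ _).and ((m_od hl _ _ _).and ((hR _ _).iff measurable_const).not))))

theorem m_dc (hl : ∀ m n, Measurable fun y => l y m n) (hR : ∀ m n, Measurable fun y => R y m n)
    (hA : ∀ m, Measurable fun y => A y m) (hB : ∀ m, Measurable fun y => B y m)
    {o : Ordinal.{0}} (ho : o < Ordinal.omega 1) (e f c : Bool) (m n : ℕ) :
    Measurable fun y => Dc th (l y) (R y) (A y) (B y) o e f c m n := by
  unfold Dc
  exact (m_zs hl hR hA hB o ho m n).and (Measurable.forall fun m' => Measurable.forall fun n' =>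
    (m_zs hl hR hA hB o ho m' n').imp ((m_od hl _ _ _).imp ((m_od hl _ _ _).imp
      ((hR _ _).iff measurable_const))))

theorem m_ec (hl : ∀ m n, Measurable fun y => l y m n) (hR : ∀ m n, Measurable fun y => R y m n)
    (hA : ∀ m, Measurable fun y => A y m) (hB : ∀ m, Measurable fun y => B y m)
    {o : Ordinal.{0}} (ho : o < Ordinal.omega 1) (e f c : Bool) (m n : ℕ) :
    Measurable fun y => Ec th (l y) (R y) (A y) (B y) o e f c m n := by
  unfold Ec
  exact (m_dc hl hR hA hB ho e f c m n).and ((hR m n).iff measurable_const).not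

theorem m_hl (hl : ∀ m n, Measurable fun y => l y m n) (hE : ∀ m n, Measurable fun y => E y m n)
    (e f : Bool) (m n : ℕ) : Measurable fun y => Hl (l y) e f (E y) m n := by
  unfold Hl
  exact Measurable.exists fun m' => Measurable.exists fun n' => (hE m' n').and
    ((measurable_const.or (m_od hl _ _ _)).and (measurable_const.or (m_od hl _ _ _)))

end meas

end Pool.Agent.U97.SC
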